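import Mathlib

namespace Pool.Agent.P.MP_2f3b43_co

open SimpleGraph Filter Asymptotics

/-- A class of finite simple graphs: for every `n` a set of graphs on the vertex set `Fin n`. -/
abbrev GClass := (n : ℕ) → Set (SimpleGraph (Fin n))

/-- The class is closed under taking (copies of) subgraphs. -/
def Mono (C : GClass) : Prop :=
  ∀ (m n : ℕ) (H : SimpleGraph (Fin m)) (G : SimpleGraph (Fin n)),
    G ∈ C n → H.IsContained G → H ∈ C m

/-- `S` is a balanced separator: every component of `G - S` has at most `2n/3` vertices. -/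
def BalSep {n : ℕ} (G : SimpleGraph (Fin n)) (S : Set (Fin n)) : Prop :=
  ∀ c : (G.induce Sᶜ).ConnectedComponent, 3 * c.supp.ncard ≤ 2 * n

/-- Every `n`-vertex graph of the class has a balanced separator of order `O(n ^ a)`. -/
def SepBound (C : GClass) (a : ℝ) : Prop :=
  ∃ s : ℕ → ℝ, s =O[atTop] (fun n : ℕ => (n : ℝ) ^ a) ∧
    ∀ n : ℕ, ∀ G ∈ C n, ∃ S : Set (Fin n), BalSep G S ∧ (S.ncard : ℝ) ≤ s n

/-- `H` is a depth-`r` minor of `G`. -/
def DepthMinor (r : ℕ) {m n : ℕ} (H : SimpleGraph (Fin m)) (G : SimpleGraph (Fin n)) : Prop :=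
  ∃ B : Fin m → G.Subgraph,
    (∀ u v, u ≠ v → Disjoint (B u).verts (B v).verts) ∧
    (∀ u, (B u).Connected ∧ (B u).coe.radius ≤ (r : ℕ∞)) ∧
    ∀ u v, H.Adj u v → ∃ x ∈ (B u).verts, ∃ y ∈ (B v).verts, G.Adj x y

/-- The class has expansion bounded by a function `f(r) = O(r ^ b)`: every depth-`r` minor of
every graph of the class has average degree at most `f r`. -/
def ExpBound (C : GClass) (b : ℝ) : Prop :=
  ∃ f : ℕ → ℝ, f =O[atTop] (fun r : ℕ => (r : ℝ) ^ b) ∧
    ∀ r n : ℕ, ∀ G ∈ C n, ∀ (m : ℕ) (H : SimpleGraph (Fin m)),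
      DepthMinor r H G → 2 * (H.edgeSet.ncard : ℝ) / m ≤ f r

end Pool.Agent.P.MP_2f3b43_co
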