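import Pool.Agent.P.MP_2f3b43_co.Model

namespace Pool.Agent.P.MP_2f3b43_co

open SimpleGraph Finset
open scoped Classical

theorem median {α β : Type} [LinearOrder α] (U : Finset β) (hU : U.Nonempty) (κ : β → α) :
    ∃ t : α, 2 * (U.filter fun x => κ x < t).card ≤ U.card ∧
      2 * (U.filter fun x => t < κ x).card ≤ U.card := by
  let F := U.filter fun z => U.card ≤ 2 * (U.filter fun x => κ x ≤ κ z).card
  have hF : F.Nonempty := by
    obtain ⟨z, hz, hmax⟩ := exists_max_image U κ hU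
    refine ⟨z, mem_filter.mpr ⟨hz, ?_⟩⟩
    rw [filter_true_of_mem hmax]; omega
  obtain ⟨z, hz, hmin⟩ := exists_min_image F κ hF
  refine ⟨κ z, ?_, ?_⟩
  · rcases (U.filter fun x => κ x < κ z).eq_empty_or_nonempty with h | h
    · simp [h]
    obtain ⟨w, hw, hmax⟩ := exists_max_image _ κ h
    obtain ⟨hw1, hw2⟩ := mem_filter.mp hw
    have h1 : ¬ U.card ≤ 2 * (U.filter fun x => κ x ≤ κ w).card := fun hh =>
      absurd (hmin w (mem_filter.mpr ⟨hw1, hh⟩)) (not_le.mpr hw2)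
    have h2 : (U.filter fun x => κ x < κ z) ⊆ U.filter fun x => κ x ≤ κ w := fun x hx =>
      mem_filter.mpr ⟨(mem_filter.mp hx).1, hmax x hx⟩
    have := card_le_card h2
    omega
  · have h1 := (mem_filter.mp hz).2
    have h2 := card_filter_add_card_filter_not (s := U) (fun x => κ x ≤ κ z)
    simp only [not_le] at h2
    omega

theorem balSep_of_cut {n : ℕ} {H : SimpleGraph (Fin n)} {S P Q : Finset (Fin n)}
    (hc : Cut H univ S P Q) (hP : 3 * P.card ≤ 2 * n) (hQ : 3 * Q.card ≤ 2 * n) :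
    BalSep H (S : Set (Fin n)) := by
  intro c
  obtain ⟨x, hx⟩ := c.exists_rep
  have key : ∀ P Q, Cut H univ S P Q → (x : Fin n) ∈ P → c.supp.ncard ≤ P.card := by
    intro P Q hc hxP
    rw [← Set.ncard_image_of_injective _ Subtype.val_injective, ← Set.ncard_coe_finset]
    apply Set.ncard_le_ncard _ (Set.toFinite _)
    rintro _ ⟨y, hy, rfl⟩
    have : (H.induce (S : Set (Fin n))ᶜ).Reachable x y := by
      rw [ConnectedComponent.mem_supp_iff, ← hx] at hy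
      exact (ConnectedComponent.exact hy).symm
    obtain ⟨w⟩ := this
    have e2 : ∀ z ∈ (w.map (Embedding.induce (G := H) (S : Set (Fin n))ᶜ).toHom).support,
        z ∈ (univ : Finset (Fin n)) ∧ z ∉ S := by
      intro z hz
      rw [Walk.support_map, List.mem_map] at hz
      obtain ⟨y, -, rfl⟩ := hz
      exact ⟨mem_univ _, y.2⟩
    exact walk_side hc _ e2 hxP
  rcases (hc.cov x).mp (mem_univ _) with h | h | h
  · exact absurd h x.2
  · have := key P Q hc h; omega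
  · have := key Q P hc.symm h; omega

/-- Vertices of the subdivided clique. -/
abbrev SV (m r : ℕ) := Fin m ⊕ (Fin m × Fin m × Fin r)

def sR {m r : ℕ} : SV m r → SV m r → Prop
  | .inl u, .inr p => p.1 = u ∧ p.2.2.val = 0
  | .inr p, .inr q => p.1 = q.1 ∧ p.2.1 = q.2.1 ∧ q.2.2.val = p.2.2.val + 1
  | .inr p, .inl v => p.2.1 = v ∧ p.2.2.val + 1 = r
  | .inl _, .inl _ => False

def sG (m r : ℕ) : SimpleGraph (SV m r) := SimpleGraph.fromRel sR

def sK {m r : ℕ} (j : ℕ) : SV m r → ℕ ×ₗ ℕ ×ₗ ℕ ×ₗ ℕ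
  | .inl u => toLex (u.val, toLex (0, toLex (0, 0)))
  | .inr p => toLex (if p.2.2.val < j then p.1.val else p.2.1.val,
      toLex (p.1.val + 1, toLex (p.2.1.val, p.2.2.val)))

theorem sK_inj {m r : ℕ} (j : ℕ) : Function.Injective (sK (m := m) (r := r) j) := by
  rintro (u | ⟨u, v, i⟩) (u' | ⟨u', v', i'⟩) h <;>
    simp only [sK, toLex_inj, Prod.mk.injEq] at h
  · rw [Fin.ext h.1]
  · omega
  · omega
  · rw [Fin.ext (by omega : u.val = u'.val), Fin.ext h.2.2.1, Fin.ext h.2.2.2]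

theorem sK_cross {m r : ℕ} (j : ℕ) (hj : j ≤ r) (t1 t2 t3 t4 : ℕ) (x y : SV m r) (h : sR x y)
    (h0 : ∀ p, (x = .inr p ∨ y = .inr p) → p.2.2.val ≠ j)
    (h1 : ∀ u, (x = .inl u ∨ y = .inl u) → u.val ≠ t1 ∧ j < r) :
    ¬ (sK j x < toLex (t1, toLex (t2, toLex (t3, t4))) ∧
      toLex (t1, toLex (t2, toLex (t3, t4))) < sK j y) ∧
    ¬ (sK j y < toLex (t1, toLex (t2, toLex (t3, t4))) ∧
      toLex (t1, toLex (t2, toLex (t3, t4))) < sK j x) := by
  rcases x with u | ⟨u, v, i⟩ <;> rcases y with u' | ⟨u', v', i'⟩ <;>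
    simp only [sR] at h
  · have a0 := h0 _ (Or.inr rfl)
    have a1 := h1 _ (Or.inl rfl)
    obtain ⟨rfl, h⟩ := h
    simp only [sK, Prod.Lex.toLex_lt_toLex] at a0 ⊢
    split_ifs <;> omega
  · have a0 := h0 _ (Or.inl rfl)
    have a1 := h1 _ (Or.inr rfl)
    obtain ⟨rfl, h⟩ := h
    simp only [sK, Prod.Lex.toLex_lt_toLex] at a0 ⊢
    split_ifs <;> omega
  · have a0 := h0 _ (Or.inl rfl)
    have a1 := h0 _ (Or.inr rfl)
    obtain ⟨rfl, rfl, h⟩ := h
    simp only [sK, Prod.Lex.toLex_lt_toLex] at a0 a1 ⊢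
    split_ifs <;> omega

theorem low_cut {m r n : ℕ} (H : SimpleGraph (Fin n)) (φ : Fin n → SV m r)
    (hφ : Function.Injective φ) (hadj : ∀ a b, H.Adj a b → (sG m r).Adj (φ a) (φ b)) (hn : 1 ≤ n)
    (j : ℕ) (hj : j ≤ r) (S0 : Finset (Fin n))
    (h0 : ∀ a p, φ a = .inr p → p.2.2.val = j → a ∈ S0)
    (h1 : j < r ∨ ∀ a u, φ a = .inl u → a ∈ S0) :
    ∃ S : Set (Fin n), BalSep H S ∧ S.ncard ≤ S0.card + 2 := by
  obtain ⟨t, ht1, ht2⟩ := median (univ : Finset (Fin n)) ⟨⟨0, hn⟩, mem_univ _⟩ fun a => sK j (φ a)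
  obtain ⟨⟨t1, t'⟩, rfl⟩ := toLex.surjective t
  obtain ⟨⟨t2, t''⟩, rfl⟩ := toLex.surjective t'
  obtain ⟨⟨t3, t4⟩, rfl⟩ := toLex.surjective t''
  set t : ℕ ×ₗ ℕ ×ₗ ℕ ×ₗ ℕ := toLex (t1, toLex (t2, toLex (t3, t4))) with ht
  simp only [card_univ, Fintype.card_fin] at ht1 ht2
  let S1 : Finset (Fin n) := univ.filter fun a => sK j (φ a) = t
  let S2 : Finset (Fin n) := univ.filter fun a => ∃ u, φ a = .inl u ∧ u.val = t1
  have c1 : S1.card ≤ 1 := card_le_one.mpr fun a ha b hb =>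
    hφ (sK_inj j ((mem_filter.mp ha).2.trans (mem_filter.mp hb).2.symm))
  have c2 : S2.card ≤ 1 := card_le_one.mpr fun a ha b hb => by
    obtain ⟨u, h1, h2⟩ := (mem_filter.mp ha).2
    obtain ⟨v, h3, h4⟩ := (mem_filter.mp hb).2
    apply hφ
    rw [h1, h3, Fin.ext (h2.trans h4.symm)]
  let S := S0 ∪ (S1 ∪ S2)
  refine ⟨(S : Set (Fin n)), balSep_of_cut (P := univ.filter fun a => a ∉ S ∧ sK j (φ a) < t)
    (Q := univ.filter fun a => a ∉ S ∧ t < sK j (φ a)) ⟨fun a => ?_, ?_, ?_, ?_, ?_⟩ ?_ ?_, ?_⟩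
  · simp only [mem_univ, mem_filter, true_and, true_iff]
    by_cases ha : a ∈ S
    · exact Or.inl ha
    · rcases lt_trichotomy (sK j (φ a)) t with h | h | h
      · exact Or.inr (Or.inl ⟨ha, h⟩)
      · have h' : a ∈ S1 := mem_filter.mpr ⟨mem_univ a, h⟩
        exact absurd (mem_union_right _ (mem_union_left _ h')) ha
      · exact Or.inr (Or.inr ⟨ha, h⟩)
  · intro a ha ha'; exact (mem_filter.mp ha').2.1 ha
  · intro a ha ha'; exact (mem_filter.mp ha').2.1 ha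
  · intro a ha ha'; exact lt_asymm (mem_filter.mp ha).2.2 (mem_filter.mp ha').2.2
  · intro a ha b hb hab
    obtain ⟨-, ha1, ha2⟩ := mem_filter.mp ha
    obtain ⟨-, hb1, hb2⟩ := mem_filter.mp hb
    have g0 : ∀ a, a ∉ S → ∀ p, φ a = .inr p → p.2.2.val ≠ j := fun a ha p hp hh =>
      ha (mem_union_left _ (h0 a p hp hh))
    have g1 : ∀ a, a ∉ S → ∀ u, φ a = .inl u → u.val ≠ t1 ∧ j < r := fun a ha u hu =>
      ⟨fun hh => ha (mem_union_right _ (mem_union_right _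
        (mem_filter.mpr ⟨mem_univ _, u, hu, hh⟩))),
        h1.elim id fun hh => absurd (mem_union_left _ (hh a u hu)) ha⟩
    rcases ((fromRel_adj _ _ _).mp (hadj a b hab)).2 with h | h
    · exact (sK_cross j hj t1 t2 t3 t4 _ _ h (fun p hp => hp.elim (g0 a ha1 p) (g0 b hb1 p))
        (fun u hu => hu.elim (g1 a ha1 u) (g1 b hb1 u))).1 ⟨ha2, hb2⟩
    · exact (sK_cross j hj t1 t2 t3 t4 _ _ h (fun p hp => hp.elim (g0 b hb1 p) (g0 a ha1 p))
        (fun u hu => hu.elim (g1 b hb1 u) (g1 a ha1 u))).2 ⟨ha2, hb2⟩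
  · have := card_le_card (s := univ.filter fun a => a ∉ S ∧ sK j (φ a) < t)
      (t := univ.filter fun a => sK j (φ a) < t)
      fun a ha => mem_filter.mpr ⟨mem_univ _, (mem_filter.mp ha).2.2⟩
    omega
  · have := card_le_card (s := univ.filter fun a => a ∉ S ∧ t < sK j (φ a))
      (t := univ.filter fun a => t < sK j (φ a))
      fun a ha => mem_filter.mpr ⟨mem_univ _, (mem_filter.mp ha).2.2⟩
    omega
  · rw [Set.ncard_coe_finset]
    have : S.card ≤ S0.card + (S1.card + S2.card) :=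
      (card_union_le S0 (S1 ∪ S2)).trans (Nat.add_le_add_left (card_union_le _ _) _)
    omega

theorem low_sep (δ : ℝ) (h0 : 0 < δ) (h1 : δ ≤ 1) {m r n : ℕ} (hr : 1 ≤ r)
    (hm : (m : ℝ) ≤ 2 * (r : ℝ) ^ (1 / δ - 1)) (H : SimpleGraph (Fin n)) (φ : Fin n → SV m r)
    (hφ : Function.Injective φ) (hadj : ∀ a b, H.Adj a b → (sG m r).Adj (φ a) (φ b)) :
    ∃ S : Set (Fin n), BalSep H S ∧ (S.ncard : ℝ) ≤ 4 * (n : ℝ) ^ (1 - δ) := by
  rcases Nat.eq_zero_or_pos n with rfl | hn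
  · refine ⟨∅, fun c => ?_, by simp; positivity⟩
    obtain ⟨x, -⟩ := c.exists_rep
    exact x.1.elim0
  have hr' : (0 : ℝ) < r := by exact_mod_cast hr
  have hn' : (1 : ℝ) ≤ n := by exact_mod_cast hn
  have key : ∃ (S : Set (Fin n)) (μ : ℝ), BalSep H S ∧ (S.ncard : ℝ) ≤ μ + 2 ∧ μ ≤ m ∧
      μ ≤ n / r := by
    rcases le_total (m : ℝ) (n / r) with h | h
    · obtain ⟨S, hS, hc⟩ := low_cut H φ hφ hadj hn r le_rfl
        (univ.filter fun a => ∃ u, φ a = .inl u) (fun a p _ hp => absurd hp p.2.2.2.ne)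
        (Or.inr fun a u hu => mem_filter.mpr ⟨mem_univ _, u, hu⟩)
      refine ⟨S, m, hS, ?_, le_rfl, h⟩
      have : (univ.filter fun a => ∃ u, φ a = .inl u).card ≤ (univ : Finset (Fin m)).card := by
        apply card_le_card_of_forall_subsingleton (fun a u => φ a = .inl u)
        · intro a ha
          obtain ⟨u, hu⟩ := (mem_filter.mp ha).2
          exact ⟨u, mem_univ _, hu⟩
        · intro u _ a ha b hb
          exact hφ (ha.2.trans hb.2.symm)
      simp only [card_univ, Fintype.card_fin] at this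
      exact_mod_cast (by omega : S.ncard ≤ m + 2)
    · haveI : Nonempty (Fin r) := ⟨⟨0, hr⟩⟩
      obtain ⟨j, hj⟩ := Fintype.exists_card_fiber_le_of_card_le_nsmul
        (fun a => Sum.elim (fun _ => (⟨0, hr⟩ : Fin r)) (fun p => p.2.2) (φ a)) (b := (n / r : ℝ))
        (by simp only [Fintype.card_fin, nsmul_eq_mul]; field_simp; rfl)
      obtain ⟨S, hS, hc⟩ := low_cut H φ hφ hadj hn j j.2.le
        (univ.filter fun a =>
          Sum.elim (fun _ => (⟨0, hr⟩ : Fin r)) (fun p => p.2.2) (φ a) = j)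
        (fun a p hp hh => mem_filter.mpr ⟨mem_univ _, by rw [hp]; exact Fin.ext hh⟩) (Or.inl j.2)
      refine ⟨S, n / r, hS, ?_, h, le_rfl⟩
      have : (S.ncard : ℝ) ≤ ((univ.filter fun a =>
          Sum.elim (fun _ => (⟨0, hr⟩ : Fin r)) (fun p => p.2.2) (φ a) = j).card : ℝ) + 2 := by
        exact_mod_cast hc
      refine this.trans ?_
      convert add_le_add_left hj 2
  obtain ⟨S, μ, hS, hc, hμ1, hμ2⟩ := key
  refine ⟨S, hS, ?_⟩
  have ha : 0 ≤ 1 - δ := by linarith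
  have hp : (1 : ℝ) ≤ (n : ℝ) ^ (1 - δ) := Real.one_le_rpow hn' ha
  rcases le_or_gt μ 0 with hμ | hμ
  · linarith
  have b1 : μ ^ δ ≤ 2 * (r : ℝ) ^ (1 - δ) := by
    calc μ ^ δ ≤ (2 * (r : ℝ) ^ (1 / δ - 1)) ^ δ := Real.rpow_le_rpow hμ.le (hμ1.trans hm) h0.le
      _ = 2 ^ δ * (r : ℝ) ^ (1 - δ) := by
          rw [Real.mul_rpow (by norm_num) (by positivity), ← Real.rpow_mul hr'.le]
          congr 2; field_simp
      _ ≤ _ := mul_le_mul_of_nonneg_right (Real.rpow_le_self_of_one_le (by norm_num) h1)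
          (by positivity)
  have b2 : μ ^ (1 - δ) ≤ (n : ℝ) ^ (1 - δ) / (r : ℝ) ^ (1 - δ) := by
    rw [← Real.div_rpow (by positivity) hr'.le]
    exact Real.rpow_le_rpow hμ.le hμ2 ha
  have b3 : μ ≤ 2 * (n : ℝ) ^ (1 - δ) := by
    calc μ = μ ^ δ * μ ^ (1 - δ) := by rw [← Real.rpow_add hμ]; simp
      _ ≤ (2 * (r : ℝ) ^ (1 - δ)) * ((n : ℝ) ^ (1 - δ) / (r : ℝ) ^ (1 - δ)) :=
          mul_le_mul b1 b2 (by positivity) (by positivity)
      _ = _ := by field_simp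
  linarith

def sO {m r : ℕ} : SV m r → Fin m
  | .inl u => u
  | .inr p => p.1

theorem low_minor {m r N : ℕ} (hr : 1 ≤ r) (e : SV m r ≃ Fin N) :
    DepthMinor r (⊤ : SimpleGraph (Fin m)) ((sG m r).comap e.symm) := by
  let G' := (sG m r).comap e.symm
  have adj : ∀ x y, sR x y → x ≠ y → G'.Adj (e x) (e y) := by
    intro x y h hne
    simp only [G', comap_adj, Equiv.symm_apply_apply]
    exact (fromRel_adj _ _ _).mpr ⟨hne, Or.inl h⟩
  let B : Fin m → G'.Subgraph := fun u => (⊤ : G'.Subgraph).induce {a | sO (e.symm a) = u}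
  have mem : ∀ x, e x ∈ (B (sO x)).verts := by intro x; simp [B]
  have rad : ∀ u, (B u).coe.radius ≤ (r : ℕ∞) := by
    intro u
    let c0 : (B u).verts := ⟨e (.inl u), mem (.inl u)⟩
    have step : ∀ (v : Fin m) (i : ℕ) (hi : i < r),
        (B u).coe.edist c0 ⟨e (.inr (u, v, ⟨i, hi⟩)), mem (.inr (u, v, ⟨i, hi⟩))⟩ ≤
          ((i + 1 : ℕ) : ℕ∞) := by
      intro v i
      induction i with
      | zero =>
        intro hi
        refine le_of_eq (edist_eq_one_iff_adj.mpr ?_)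
        exact ⟨mem (.inl u), mem (.inr (u, v, ⟨0, hi⟩)), adj _ _ ⟨rfl, rfl⟩ (by simp)⟩
      | succ i ih =>
        intro hi
        refine (SimpleGraph.edist_triangle
          (v := ⟨e (.inr (u, v, ⟨i, by omega⟩)), mem (.inr (u, v, ⟨i, by omega⟩))⟩)).trans ?_
        rw [Nat.cast_add (i + 1) 1]
        refine add_le_add (ih (by omega)) (le_of_eq (edist_eq_one_iff_adj.mpr ?_))
        exact ⟨mem (.inr (u, v, ⟨i, by omega⟩)), mem (.inr (u, v, ⟨i + 1, hi⟩)),
          adj _ _ ⟨rfl, rfl, rfl⟩ (by simp)⟩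
    refine (radius_le_eccent (u := c0)).trans ((eccent_le_iff _ _).mpr ?_)
    rintro ⟨a, ha⟩
    obtain ⟨x, rfl⟩ := e.surjective a
    have hx : sO x = u := by simpa [B] using ha
    rcases x with w | ⟨w, v, i⟩
    · obtain rfl : w = u := hx
      exact le_of_eq_of_le edist_self zero_le
    · obtain rfl : w = u := hx
      exact (step v i.1 i.2).trans (by exact_mod_cast i.2)
  refine ⟨B, fun u v huv => ?_, fun u => ⟨?_, rad u⟩, fun u v huv => ?_⟩
  · rw [Set.disjoint_left]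
    intro a ha ha'
    exact huv ((show sO (e.symm a) = u from ha).symm.trans ha')
  · haveI : Nonempty (B u).verts := ⟨⟨e (.inl u), mem (.inl u)⟩⟩
    exact ⟨radius_ne_top_iff.mp (ne_top_of_le_ne_top (by simp) (rad u))⟩
  · exact ⟨e (.inr (u, v, ⟨r - 1, by omega⟩)), mem (.inr (u, v, ⟨r - 1, by omega⟩)),
      e (.inl v), mem (.inl v), adj _ _ ⟨rfl, by simp only; omega⟩ (by simp)⟩

theorem low (δ : ℝ) (h0 : 0 < δ) (h1 : δ ≤ 1) (b : ℝ)
    (h : ∀ C : GClass, Mono C → SepBound C (1 - δ) → ExpBound C b) : 1 / δ - 1 ≤ b := by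
  let C : GClass := fun n => {G | ∀ (n' : ℕ) (H : SimpleGraph (Fin n')), H.IsContained G →
    ∃ S : Set (Fin n'), BalSep H S ∧ (S.ncard : ℝ) ≤ 4 * (n' : ℝ) ^ (1 - δ)}
  obtain ⟨f, hf, hC⟩ := h C (fun m n H G hG hH n' H' hH' => hG n' H' (hH'.trans hH))
    ⟨fun n => 4 * (n : ℝ) ^ (1 - δ), (Asymptotics.isBigO_refl _ _).const_mul_left 4,
      fun n G hG => hG n G IsContained.rfl⟩
  have hβ : 0 ≤ 1 / δ - 1 := by
    rw [sub_nonneg, le_div_iff₀ h0]; linarith
  have lower : ∀ r : ℕ, 1 ≤ r → (r : ℝ) ^ (1 / δ - 1) / 2 ≤ f r := by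
    intro r hr
    have hp : (1 : ℝ) ≤ (r : ℝ) ^ (1 / δ - 1) := Real.one_le_rpow (by exact_mod_cast hr) hβ
    set k := ⌊(r : ℝ) ^ (1 / δ - 1)⌋₊ with hk
    have k1 : (k : ℝ) ≤ (r : ℝ) ^ (1 / δ - 1) := Nat.floor_le (by positivity)
    have k2 : (r : ℝ) ^ (1 / δ - 1) < k + 1 := Nat.lt_floor_add_one _
    have k3 : (1 : ℝ) ≤ k := by exact_mod_cast Nat.one_le_floor_iff _ |>.mpr hp
    let e := Fintype.equivFin (SV (k + 1) r)
    have := hC r _ ((sG (k + 1) r).comap e.symm) (by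
      rintro n' H ⟨φ⟩
      exact low_sep δ h0 h1 hr (by push_cast; linarith) H (fun a => e.symm (φ a))
        (e.symm.injective.comp φ.injective) fun a b hab => φ.toHom.map_rel hab) _ _
      (low_minor hr e)
    have e1 : 2 * (⊤ : SimpleGraph (Fin (k + 1))).edgeSet.ncard = k * (k + 1) := by
      rw [← Ed_univ]
      have : Ed (⊤ : SimpleGraph (Fin (k + 1))) univ = univ.offDiag := by
        ext p; simp [mem_Ed]
      rw [this, offDiag_card]
      simp only [card_univ, Fintype.card_fin]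
      exact Nat.sub_eq_of_eq_add (by ring)
    have e2 : 2 * ((⊤ : SimpleGraph (Fin (k + 1))).edgeSet.ncard : ℝ) = k * (k + 1) := by
      exact_mod_cast e1
    rw [e2] at this
    push_cast at this
    rw [mul_div_cancel_right₀ _ (by positivity)] at this
    linarith
  by_contra hb
  obtain ⟨c, hc⟩ := hf.bound
  have ht : Filter.Tendsto (fun r : ℕ => (r : ℝ) ^ (1 / δ - 1 - b)) Filter.atTop Filter.atTop :=
    (tendsto_rpow_atTop (by linarith)).comp tendsto_natCast_atTop_atTop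
  obtain ⟨r, hr1, hr2, hr3⟩ :=
    (hc.and ((ht.eventually_gt_atTop (2 * c)).and (Filter.eventually_ge_atTop 1))).exists
  have hr' : (0 : ℝ) < r := by exact_mod_cast hr3
  have hp : 0 < (r : ℝ) ^ b := by positivity
  rw [Real.norm_eq_abs, Real.norm_eq_abs, abs_of_pos hp] at hr1
  have h2 := (lower r hr3).trans ((le_abs_self _).trans hr1)
  rw [Real.rpow_sub hr', lt_div_iff₀ hp] at hr2
  linarith

end Pool.Agent.P.MP_2f3b43_co
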