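import Pool.Agent.P.MP_2f3b43_co.Model

namespace Pool.Agent.P.MP_2f3b43_co

open SimpleGraph Finset
open scoped Classical

theorem Ed_erase {W : Type} (H : SimpleGraph W) (Z : Finset W) (v : W) :
    (Ed H Z).card ≤ (Ed H (Z.erase v)).card + 2 * (Z.filter (H.Adj v)).card := by
  have h : Ed H Z ⊆ Ed H (Z.erase v) ∪ ((Z.filter (H.Adj v)).image (fun u => (v, u)) ∪
      (Z.filter (H.Adj v)).image (fun u => (u, v))) := by
    rintro ⟨a, b⟩ hp
    obtain ⟨h1, h2, h3⟩ := mem_Ed.mp hp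
    by_cases ha : a = v
    · subst ha
      exact mem_union_right _ (mem_union_left _ (mem_image.mpr ⟨b, mem_filter.mpr ⟨h2, h3⟩, rfl⟩))
    by_cases hb : b = v
    · subst hb
      exact mem_union_right _ (mem_union_right _
        (mem_image.mpr ⟨a, mem_filter.mpr ⟨h1, h3.symm⟩, rfl⟩))
    exact mem_union_left _ (mem_Ed.mpr ⟨mem_erase.mpr ⟨ha, h1⟩, mem_erase.mpr ⟨hb, h2⟩, h3⟩)
  have h1 := card_le_card h
  have h2 := card_union_le (Ed H (Z.erase v)) ((Z.filter (H.Adj v)).image (fun u => (v, u)) ∪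
      (Z.filter (H.Adj v)).image (fun u => (u, v)))
  have h3 := card_union_le ((Z.filter (H.Adj v)).image (fun u => (v, u)))
      ((Z.filter (H.Adj v)).image (fun u => (u, v)))
  have h4 : ((Z.filter (H.Adj v)).image (fun u => (v, u))).card ≤ _ := card_image_le
  have h5 : ((Z.filter (H.Adj v)).image (fun u => (u, v))).card ≤ _ := card_image_le
  omega

/-- Mader: a dense graph has a highly connected part. -/
theorem mader {W : Type} (H : SimpleGraph W) (k : ℕ) (Z0 : Finset W)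
    (h : 4 * k * Z0.card < (Ed H Z0).card) : ∃ Z : Finset W, Z.Nonempty ∧
      (∀ v ∈ Z, 2 * k < (Z.filter (H.Adj v)).card) ∧
      ∀ X A A', Cut H Z X A A' → X.card ≤ k → A = ∅ ∨ A' = ∅ := by
  let F := Z0.powerset.filter fun Z => 2 * k ≤ Z.card ∧ 4 * k * Z.card < (Ed H Z).card + 4 * k * k
  have h0 : Z0 ∈ F := by
    refine mem_filter.mpr ⟨mem_powerset_self _, ?_, by omega⟩
    have := Ed_le H Z0
    by_contra hh
    nlinarith
  obtain ⟨Z, hZ, hmin⟩ := exists_min_image F card ⟨Z0, h0⟩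
  obtain ⟨hZ0, hZ1, hZ2⟩ := mem_filter.mp hZ
  have hsub : ∀ R ⊆ Z, 2 * k ≤ R.card → R.card < Z.card →
      (Ed H R).card + 4 * k * k ≤ 4 * k * R.card := by
    intro R hR h1 h2
    by_contra hh
    have := hmin R (mem_filter.mpr ⟨mem_powerset.mpr (hR.trans (mem_powerset.mp hZ0)), h1,
      not_le.mp hh⟩)
    omega
  have hne : 2 * k < Z.card := by
    rcases lt_or_eq_of_le hZ1 with h1 | h1
    · exact h1
    · have := Ed_le H Z
      rw [← h1] at this hZ2
      nlinarith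
  have hdeg : ∀ v ∈ Z, 2 * k < (Z.filter (H.Adj v)).card := by
    intro v hv
    have h1 := card_erase_add_one hv
    have h2 := hsub (Z.erase v) (erase_subset _ _) (by omega) (by omega)
    have h3 := Ed_erase H Z v
    rw [← h1] at hZ2
    nlinarith
  refine ⟨Z, card_pos.mp (by omega), hdeg, fun X A A' hc hX => ?_⟩
  by_contra hh
  rw [not_or] at hh
  have side : ∀ A A', Cut H Z X A A' → A ≠ ∅ → A' ≠ ∅ →
      (Ed H (X ∪ A)).card + 4 * k * k ≤ 4 * k * (X.card + A.card) := by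
    intro A A' hc hA hA'
    obtain ⟨v, hv⟩ := nonempty_iff_ne_empty.mpr hA
    have h1 : Z.filter (H.Adj v) ⊆ X ∪ A := by
      intro u hu
      obtain ⟨hu1, hu2⟩ := mem_filter.mp hu
      rcases (hc.cov u).mp hu1 with h | h | h
      · exact mem_union_left _ h
      · exact mem_union_right _ h
      · exact absurd hu2 (hc.noe v hv u h)
    have h2 := card_le_card h1
    have h3 := hdeg v ((hc.cov v).mpr (by tauto))
    have h4 := card_union_le X A
    have h5 := hc.card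
    have h6 := card_pos.mpr (nonempty_iff_ne_empty.mpr hA')
    refine (hsub (X ∪ A) (fun u hu => (hc.cov u).mpr ?_) (by omega) (by omega)).trans
      (Nat.mul_le_mul_left _ h4)
    have := mem_union.mp hu
    tauto
  have h1 := side A A' hc hh.1 hh.2
  have h2 := side A' A hc.symm hh.2 hh.1
  have h3 := Ed_split H hc
  have h4 : ((Ed H Z).filter fun p => p.1 ∈ A ∧ p.2 ∈ A' ∨ p.1 ∈ A' ∧ p.2 ∈ A) = ∅ := by
    rw [filter_eq_empty_iff]
    rintro p hp (h | h)
    · exact hc.noe _ h.1 _ h.2 (mem_Ed.mp hp).2.2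
    · exact hc.noe _ h.2 _ h.1 (mem_Ed.mp hp).2.2.symm
  rw [h4, card_empty] at h3
  rw [hc.card] at hZ2
  nlinarith

theorem top_set {W : Type} (f : W → ℕ) (Z : Finset W) : ∀ t, t ≤ Z.card →
    ∃ Y ⊆ Z, Y.card = t ∧ ∀ y ∈ Y, ∀ u ∈ Z \ Y, f u ≤ f y := by
  intro t
  induction t with
  | zero => intro _; exact ⟨∅, by simp, by simp, by simp⟩
  | succ t ih =>
    intro ht
    obtain ⟨Y, h1, h2, h3⟩ := ih (by omega)
    have hne : (Z \ Y).Nonempty := by
      rw [← card_pos, card_sdiff_of_subset h1]; omega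
    obtain ⟨y, hy, hmax⟩ := exists_max_image _ f hne
    refine ⟨insert y Y, insert_subset (mem_sdiff.mp hy).1 h1, ?_, fun z hz u hu => ?_⟩
    · rw [card_insert_of_notMem (mem_sdiff.mp hy).2, h2]
    · have hu' : u ∈ Z \ Y := by
        simp only [mem_sdiff, mem_insert, not_or] at hu ⊢; tauto
      rcases mem_insert.mp hz with rfl | hz
      · exact hmax u hu'
      · exact h3 z hz u hu'

theorem Model.piece {V W : Type} {G : SimpleGraph V} {H : SimpleGraph W} {r : ℕ}
    {B : W → Finset V} {c : W → V} (hM : Model G H r B c) (u : W) (x : V) (hx : x ∈ B u) :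
    ∀ L, L + 1 ≤ (B u).card → ∃ P ⊆ B u, P.card = L + 1 ∧ x ∈ P ∧
      ∀ z ∈ P, ∃ w : G.Walk x z, ∀ y ∈ w.support, y ∈ P := by
  intro L
  induction L with
  | zero =>
    intro _
    refine ⟨{x}, by simpa, by simp, by simp, fun z hz => ?_⟩
    obtain rfl := mem_singleton.mp hz
    exact ⟨Walk.nil, by simp⟩
  | succ L ih =>
    intro hL
    obtain ⟨P, h1, h2, h3, h4⟩ := ih (by omega)
    have hne : (B u \ P).Nonempty := by
      rw [← card_pos, card_sdiff_of_subset h1]; omega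
    obtain ⟨b, hb⟩ := hne
    obtain ⟨w1, -, hw1⟩ := hM.wlk u x hx
    obtain ⟨w2, -, hw2⟩ := hM.wlk u b (mem_sdiff.mp hb).1
    obtain ⟨d, hd, hd1, hd2⟩ := (w1.reverse.append w2).exists_boundary_dart (P : Set V) h3
      (mem_sdiff.mp hb).2
    have hd3 : d.snd ∈ B u := by
      have := Walk.dart_snd_mem_support_of_mem_darts _ hd
      rw [Walk.mem_support_append_iff] at this
      rcases this with h | h
      · exact hw1 _ (by simpa using h)
      · exact hw2 _ h
    refine ⟨insert d.snd P, insert_subset hd3 h1, ?_, mem_insert_of_mem h3, fun z hz => ?_⟩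
    · rw [card_insert_of_notMem hd2, h2]
    · rcases mem_insert.mp hz with rfl | hz
      · obtain ⟨w, hw⟩ := h4 _ hd1
        refine ⟨w.concat d.adj, fun y hy => ?_⟩
        rw [Walk.support_concat] at hy
        simp only [List.concat_eq_append, List.mem_append, List.mem_singleton] at hy
        rcases hy with hy | rfl
        · exact mem_insert_of_mem (hw y hy)
        · exact mem_insert_self _ _
      · obtain ⟨w, hw⟩ := h4 z hz
        exact ⟨w, fun y hy => mem_insert_of_mem (hw y hy)⟩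

theorem Model.side {V W : Type} {G : SimpleGraph V} {H : SimpleGraph W} {r : ℕ}
    {B : W → Finset V} {c : W → V} (hM : Model G H r B c) {k : ℕ} {Z Y : Finset W} (hY : Y ⊆ Z)
    (hZ : ∀ X A A', Cut H Z X A A' → X.card ≤ k → A = ∅ ∨ A' = ∅) {U S P Q : Finset V}
    (hU : ∀ u ∈ Z \ Y, B u ⊆ U) (hc : Cut G U S P Q) (hS : S.card + Y.card ≤ k) :
    (∀ u ∈ Z \ Y, (¬ ∃ x ∈ S, x ∈ B u) → B u ⊆ P) ∨
      (∀ u ∈ Z \ Y, (¬ ∃ x ∈ S, x ∈ B u) → B u ⊆ Q) := by
  have all : ∀ P Q, Cut G U S P Q → ∀ u ∈ Z \ Y, (¬ ∃ x ∈ S, x ∈ B u) → c u ∈ P → B u ⊆ P := by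
    intro P Q hc u hu hn hp x hx
    obtain ⟨w, -, hw⟩ := hM.wlk u x hx
    exact walk_side hc w (fun z hz => ⟨hU u hu (hw z hz), fun h => hn ⟨z, h, hw z hz⟩⟩) hp
  have cov : ∀ u ∈ Z \ Y, (¬ ∃ x ∈ S, x ∈ B u) → c u ∈ P ∨ c u ∈ Q := by
    intro u hu hn
    rcases (hc.cov (c u)).mp (hU u hu (hM.mem u)) with h | h
    · exact absurd ⟨_, h, hM.mem u⟩ hn
    · exact h
  have := hZ (((Z \ Y).filter fun u => ∃ x ∈ S, x ∈ B u) ∪ Y)
    ((Z \ Y).filter fun u => (¬ ∃ x ∈ S, x ∈ B u) ∧ c u ∈ P)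
    ((Z \ Y).filter fun u => (¬ ∃ x ∈ S, x ∈ B u) ∧ c u ∈ Q) ⟨fun u => ?_, ?_, ?_, ?_, ?_⟩ ?_
  · rcases this with h | h
    · right
      intro u hu hn
      rcases cov u hu hn with h1 | h1
      · exact absurd ⟨hn, h1⟩ (filter_eq_empty_iff.mp h hu)
      · exact all Q P hc.symm u hu hn h1
    · left
      intro u hu hn
      rcases cov u hu hn with h1 | h1
      · exact all P Q hc u hu hn h1
      · exact absurd ⟨hn, h1⟩ (filter_eq_empty_iff.mp h hu)
  · have h1 := cov u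
    have h2 := @hY u
    simp only [mem_union, mem_filter, mem_sdiff] at h1 ⊢
    generalize (∃ x ∈ S, x ∈ B u) = p at h1 ⊢
    clear all cov hZ hU
    tauto
  · intro u hu hu'
    simp only [mem_union, mem_filter, mem_sdiff] at hu hu'
    rcases hu with hu | hu
    · exact hu'.2.1 hu.2
    · exact hu'.1.2 hu
  · intro u hu hu'
    simp only [mem_union, mem_filter, mem_sdiff] at hu hu'
    rcases hu with hu | hu
    · exact hu'.2.1 hu.2
    · exact hu'.1.2 hu
  · intro u hu hu'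
    exact hc.pq _ (mem_filter.mp hu).2.2 (mem_filter.mp hu').2.2
  · intro u hu v hv huv
    obtain ⟨x, hx, y, hy, hxy⟩ := hM.adj u v huv
    obtain ⟨h1, h2, h3⟩ := mem_filter.mp hu
    obtain ⟨h4, h5, h6⟩ := mem_filter.mp hv
    exact hc.noe x (all P Q hc u h1 h2 h3 hx) y (all Q P hc.symm v h4 h5 h6 hy) hxy
  · have h1 := hM.hit_card (Z \ Y) S
    have h2 := card_union_le ((Z \ Y).filter fun u => ∃ x ∈ S, x ∈ B u) Y
    omega

theorem one {V W : Type} (G : SimpleGraph V) (H : SimpleGraph W) (r K : ℕ) (B : W → Finset V)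
    (c : W → V) (hG : ∀ U : Finset V, ∃ S P Q, Cut G U S P Q ∧ 3 * P.card ≤ 2 * U.card ∧
      3 * Q.card ≤ 2 * U.card ∧ S.card ≤ K) (hM : Model G H r B c) (Z0 : Finset W) :
    (Ed H Z0).card ≤ 4 * (13 * K + 1) * Z0.card := by
  by_contra hh
  obtain ⟨Z, hne, hdeg, hZ⟩ := mader H (13 * K + 1) Z0 (not_le.mp hh)
  have hZc : 2 * (13 * K + 1) < Z.card := by
    obtain ⟨v, hv⟩ := hne
    exact (hdeg v hv).trans_le (card_filter_le _ _)
  obtain ⟨Y, hY, hYc, htop⟩ := top_set (fun u => (B u).card) Z (12 * K + 1) (by omega)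
  have hne0 : (Z \ Y).Nonempty := by
    rw [← card_pos, card_sdiff_of_subset hY]; omega
  obtain ⟨u0, hu0, hmax⟩ := exists_max_image _ (fun u => (B u).card) hne0
  obtain ⟨L, hL⟩ : ∃ L, (B u0).card = L + 1 :=
    ⟨(B u0).card - 1, by have := card_pos.mpr ⟨_, hM.mem u0⟩; omega⟩
  simp only [hL] at hmax
  -- one side carries all branch sets that are not hit
  have sd : ∀ U : Finset V, (∀ u ∈ Z \ Y, B u ⊆ U) → ∃ S P Q, Cut G U S P Q ∧
      3 * P.card ≤ 2 * U.card ∧ S.card ≤ K ∧ ∀ u ∈ Z \ Y, (¬ ∃ x ∈ S, x ∈ B u) → B u ⊆ P := by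
    intro U hU
    obtain ⟨S, P, Q, hc, hP, hQ, hS⟩ := hG U
    rcases hM.side hY hZ hU hc (by omega) with h | h
    · exact ⟨S, P, Q, hc, hP, hS, h⟩
    · exact ⟨S, Q, P, hc.symm, hQ, hS, h⟩
  have hU0 : ((Z \ Y).biUnion B).card ≤ 3 * (K * (L + 1)) := by
    obtain ⟨S, P, Q, hc, hP, hS, h⟩ := sd ((Z \ Y).biUnion B) fun u hu => subset_biUnion_of_mem _ hu
    have h1 : (Z \ Y).biUnion B ⊆ P ∪ ((Z \ Y).filter fun u => ∃ x ∈ S, x ∈ B u).biUnion B := by
      intro x hx
      obtain ⟨u, hu, hx⟩ := mem_biUnion.mp hx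
      by_cases hn : ∃ x ∈ S, x ∈ B u
      · exact mem_union_right _ (mem_biUnion.mpr ⟨u, mem_filter.mpr ⟨hu, hn⟩, hx⟩)
      · exact mem_union_left _ (h u hu hn hx)
    have h2 := (card_le_card h1).trans (card_union_le _ _)
    have h3 := card_biUnion_le_card_mul ((Z \ Y).filter fun u => ∃ x ∈ S, x ∈ B u) B (L + 1)
      fun u hu => hmax u (mem_filter.mp hu).1
    have h4 := Nat.mul_le_mul_right (L + 1) ((hM.hit_card (Z \ Y) S).trans hS)
    omega
  -- distinct attachments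
  obtain ⟨a, ha1, ha2⟩ := (all_card_le_biUnion_card_iff_exists_injective
    (fun y : Y => (Z \ Y).filter (H.Adj y))).mp (by
      intro s
      rcases s.eq_empty_or_nonempty with rfl | ⟨y, hy⟩
      · simp
      have h1 : s.card ≤ Y.card := by simpa using card_le_univ s
      have h2 := card_le_card (subset_biUnion_of_mem (fun y : Y => (Z \ Y).filter (H.Adj y)) hy)
      have h3 := hdeg y (hY y.2)
      have h4 : Z.filter (H.Adj y) ⊆ (Z \ Y).filter (H.Adj y) ∪ Y := by
        intro u hu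
        simp only [mem_union, mem_filter, mem_sdiff] at hu ⊢
        tauto
      have h5 := (card_le_card h4).trans (card_union_le _ _)
      omega)
  have key : ∀ y : Y, ∃ (P : Finset V) (x z : V), P ⊆ B y ∧ P.card = L + 1 ∧ x ∈ P ∧
      z ∈ B (a y) ∧ G.Adj x z ∧ ∀ t ∈ P, ∃ w : G.Walk x t, ∀ s ∈ w.support, s ∈ P := by
    intro y
    obtain ⟨x, hx, z, hz, hxz⟩ := hM.adj _ _ (mem_filter.mp (ha2 y)).2
    obtain ⟨P, h1, h2, h3, h4⟩ := hM.piece y x hx L (hL ▸ htop y y.2 u0 hu0)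
    exact ⟨P, x, z, h1, h2, h3, hz, hxz, h4⟩
  choose T x z hT1 hT2 hT3 hT4 hT5 hT6 using key
  obtain ⟨S, P, Q, hc, hP, hS, h⟩ := sd ((Z \ Y).biUnion B ∪ univ.biUnion T)
    fun u hu => (subset_biUnion_of_mem _ hu).trans subset_union_left
  have hU : ((Z \ Y).biUnion B ∪ univ.biUnion T).card ≤
      3 * (K * (L + 1)) + (12 * K + 1) * (L + 1) := by
    refine (card_union_le _ _).trans (Nat.add_le_add hU0 ?_)
    have := card_biUnion_le_card_mul univ T (L + 1) fun y _ => (hT2 y).le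
    simpa [hYc] using this
  let good : Finset Y := univ.filter fun y => (¬ ∃ s ∈ S, s ∈ B y) ∧ ¬ ∃ s ∈ S, s ∈ B (a y)
  have hgood : 12 * K + 1 ≤ good.card + 2 * K := by
    have h1 : (univ : Finset Y) ⊆ good ∪ ((univ.filter fun y : Y => ∃ s ∈ S, s ∈ B y) ∪
        (univ.filter fun y : Y => ∃ s ∈ S, s ∈ B (a y))) := by
      intro y _
      simp only [good, mem_union, mem_filter, mem_univ, true_and]
      by_cases g1 : ∃ s ∈ S, s ∈ B y
      · exact Or.inr (Or.inl g1)
      by_cases g2 : ∃ s ∈ S, s ∈ B (a y)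
      · exact Or.inr (Or.inr g2)
      exact Or.inl ⟨g1, g2⟩
    have h2 : (univ.filter fun y : Y => ∃ s ∈ S, s ∈ B y).card ≤ S.card := by
      refine le_trans ?_ (hM.hit_card Z S)
      apply card_le_card_of_injOn Subtype.val
      · intro y hy
        exact mem_coe.mpr (mem_filter.mpr ⟨hY y.2, (mem_filter.mp hy).2⟩)
      · exact Subtype.val_injective.injOn
    have h3 : (univ.filter fun y : Y => ∃ s ∈ S, s ∈ B (a y)).card ≤ S.card := by
      refine le_trans ?_ (hM.hit_card (Z \ Y) S)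
      apply card_le_card_of_injOn a
      · intro y hy
        exact mem_coe.mpr (mem_filter.mpr ⟨(mem_filter.mp (ha2 y)).1, (mem_filter.mp hy).2⟩)
      · exact ha1.injOn
    have h4 := (card_le_card h1).trans ((card_union_le _ _).trans
      (Nat.add_le_add_left (card_union_le _ _) _))
    simp only [card_univ, Fintype.card_coe] at h4
    omega
  have hsub : good.biUnion T ⊆ P := by
    intro t ht
    obtain ⟨y, hy, ht⟩ := mem_biUnion.mp ht
    obtain ⟨g1, g2⟩ := (mem_filter.mp hy).2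
    have inU : ∀ s ∈ T y, s ∈ (Z \ Y).biUnion B ∪ univ.biUnion T ∧ s ∉ S := fun s hs =>
      ⟨mem_union_right _ (mem_biUnion.mpr ⟨y, mem_univ _, hs⟩), fun h => g1 ⟨s, h, hT1 y hs⟩⟩
    have hz : z y ∈ P := h _ (mem_filter.mp (ha2 y)).1 g2 (hT4 y)
    have hx : x y ∈ P := by
      rcases (hc.cov _).mp (inU _ (hT3 y)).1 with h | h | h
      · exact absurd h (inU _ (hT3 y)).2
      · exact h
      · exact absurd (hT5 y).symm (hc.noe _ hz _ h)
    obtain ⟨w, hw⟩ := hT6 y t ht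
    exact walk_side hc w (fun s hs => inU s (hw s hs)) hx
  have hcard : (good.biUnion T).card = good.card * (L + 1) := by
    rw [card_biUnion, sum_congr rfl fun y _ => hT2 y]
    · simp
    · intro y _ y' _ hne
      refine Finset.disjoint_left.mpr fun t ht ht' => hne ?_
      exact Subtype.ext (hM.dis _ _ t (hT1 y ht) (hT1 y' ht'))
  have h1 := card_le_card hsub
  rw [hcard] at h1
  have h2 := Nat.mul_le_mul_right (L + 1) hgood
  nlinarith

end Pool.Agent.P.MP_2f3b43_co
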