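import Pool.Agent.P.MP_2f3b43_co.Up
import Pool.Agent.P.MP_2f3b43_co.One
import Pool.Agent.P.MP_2f3b43_co.Low

namespace Pool.Agent.P.MP_2f3b43_co

open SimpleGraph Finset
open scoped Classical

theorem up_all (δ K : ℝ) (h0 : 0 < δ) (h1 : δ ≤ 1) (hK : 1 ≤ K) : ∃ C : ℝ, 0 ≤ C ∧
    ∀ {V W : Type} (G : SimpleGraph V) (H : SimpleGraph W) (r : ℕ) (B : W → Finset V) (c : W → V),
      HSep G K (1 - δ) → Model G H r B c → 1 ≤ r → ∀ Z : Finset W,
        ((Ed H Z).card : ℝ) ≤ C * (r : ℝ) ^ (1 / δ - 1) * Z.card := by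
  rcases h1.lt_or_eq with h1 | rfl
  · exact up δ K h0 h1 hK
  refine ⟨4 * (13 * ⌈K⌉₊ + 1), by positivity, fun G H r B c hG hM _ Z => ?_⟩
  have := one G H r ⌈K⌉₊ B c (fun U => by
    obtain ⟨S, P, Q, h, a, b, d⟩ := hG U
    refine ⟨S, P, Q, h, a, b, ?_⟩
    rw [sub_self, Real.rpow_zero, mul_one] at d
    exact_mod_cast d.trans (Nat.le_ceil K)) hM Z
  rw [div_one, sub_self, Real.rpow_zero, mul_one]
  exact_mod_cast this

theorem upper (δ : ℝ) (h0 : 0 < δ) (h1 : δ ≤ 1) (b : ℝ) (hb : 1 / δ - 1 ≤ b) (C : GClass)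
    (hm : Mono C) (hs : SepBound C (1 - δ)) : ExpBound C b := by
  obtain ⟨K, hK, hC⟩ := hsep_of_class C (1 - δ) (by linarith) hm hs
  obtain ⟨D, hD, hup⟩ := up_all δ K h0 h1 hK
  refine ⟨fun r => D * ((max r 1 : ℕ) : ℝ) ^ b, ?_, fun r n G hG m H hH => ?_⟩
  · refine Asymptotics.IsBigO.of_bound D ?_
    filter_upwards [Filter.eventually_ge_atTop 1] with r hr
    rw [max_eq_left hr, norm_mul, Real.norm_of_nonneg hD]
  · obtain ⟨B, c, hM⟩ := model_of hH
    have hM' : Model G H (max r 1) B c := ⟨hM.mem, hM.dis, fun u x hx => by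
      obtain ⟨w, h, h'⟩ := hM.wlk u x hx
      exact ⟨w, h.trans (le_max_left _ _), h'⟩, hM.adj⟩
    have h := hup G H (max r 1) B c (hC n G hG) hM' (le_max_right _ _) univ
    rw [Ed_univ, card_univ, Fintype.card_fin] at h
    have h1' : (1 : ℝ) ≤ ((max r 1 : ℕ) : ℝ) := by exact_mod_cast le_max_right _ _
    have h2 := mul_le_mul_of_nonneg_left (Real.rpow_le_rpow_of_exponent_le h1' hb) hD
    refine div_le_of_le_mul₀ (by positivity) (by positivity) ?_
    refine le_trans (by push_cast; rfl) (h.trans ?_)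
    exact mul_le_mul_of_nonneg_right h2 (by positivity)

end Pool.Agent.P.MP_2f3b43_co
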