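import Pool.Agent.P.MP_2f3b43_co.Sep

namespace Pool.Agent.P.MP_2f3b43_co

open SimpleGraph Finset
open scoped Classical

/-- Branch sets with centres. -/
structure Model {V W : Type} (G : SimpleGraph V) (H : SimpleGraph W) (r : ℕ) (B : W → Finset V)
    (c : W → V) : Prop where
  mem : ∀ u, c u ∈ B u
  dis : ∀ u v x, x ∈ B u → x ∈ B v → u = v
  wlk : ∀ u, ∀ x ∈ B u, ∃ w : G.Walk (c u) x, w.length ≤ r ∧ ∀ z ∈ w.support, z ∈ B u
  adj : ∀ u v, H.Adj u v → ∃ x ∈ B u, ∃ y ∈ B v, G.Adj x y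

theorem model_of {r m n : ℕ} {H : SimpleGraph (Fin m)} {G : SimpleGraph (Fin n)}
    (h : DepthMinor r H G) : ∃ B c, Model G H r B c := by
  obtain ⟨B, h1, h2, h3⟩ := h
  have key : ∀ u, ∃ c ∈ (B u).verts, ∀ x ∈ (B u).verts,
      ∃ w : G.Walk c x, w.length ≤ r ∧ ∀ z ∈ w.support, z ∈ (B u).verts := by
    intro u
    obtain ⟨hc, hr⟩ := h2 u
    haveI : Nonempty (B u).verts := hc.nonempty.to_subtype
    obtain ⟨c, hc'⟩ := exists_eccent_eq_radius (G := (B u).coe)
    refine ⟨c, c.2, fun x hx => ?_⟩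
    have hd : (B u).coe.edist c ⟨x, hx⟩ ≤ r := edist_le_eccent.trans (hc' ▸ hr)
    have hne : (B u).coe.edist c ⟨x, hx⟩ ≠ ⊤ := ne_top_of_le_ne_top (by simp) hd
    obtain ⟨w, hw⟩ := exists_walk_of_edist_ne_top hne
    have e1 : (w.map (B u).hom).length ≤ r := by
      rw [Walk.length_map]
      rw [← hw] at hd
      exact_mod_cast hd
    have e2 : ∀ z ∈ (w.map (B u).hom).support, z ∈ (B u).verts := by
      intro z hz
      rw [Walk.support_map, List.mem_map] at hz
      obtain ⟨y, -, rfl⟩ := hz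
      exact y.2
    exact ⟨w.map (B u).hom, e1, e2⟩
  choose c hc hw using key
  refine ⟨fun u => (B u).verts.toFinset, c, fun u => by simpa using hc u, fun u v x hx hx' => ?_,
    fun u x hx => ?_, fun u v huv => ?_⟩
  · by_contra hne
    exact Set.disjoint_left.mp (h1 u v hne) (by simpa using hx) (by simpa using hx')
  · simpa using hw u x (by simpa using hx)
  · simpa using h3 u v huv

theorem Model.hit_card {V W : Type} {G : SimpleGraph V} {H : SimpleGraph W} {r : ℕ}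
    {B : W → Finset V} {c : W → V} (hM : Model G H r B c) (Z : Finset W) (S : Finset V) :
    (Z.filter fun u => ∃ x ∈ S, x ∈ B u).card ≤ S.card := by
  apply card_le_card_of_forall_subsingleton (fun u x => x ∈ B u)
  · intro u hu
    obtain ⟨x, hx, hx'⟩ := (mem_filter.mp hu).2
    exact ⟨x, hx, hx'⟩
  · intro x _ u hu v hv
    exact hM.dis u v x hu.2 hv.2

theorem Model.hcut {V W : Type} {G : SimpleGraph V} {H : SimpleGraph W} {r : ℕ}
    {B : W → Finset V} {c : W → V} (hM : Model G H r B c) (K a : ℝ) (hK : 0 ≤ K) (ha : 0 ≤ a)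
    (hw : ∀ Z U : Finset V, ∃ S P Q, Cut G U S P Q ∧ 2 * (P ∩ Z).card ≤ (U ∩ Z).card ∧
      2 * (Q ∩ Z).card ≤ (U ∩ Z).card ∧ (S.card : ℝ) ≤ K * (U.card : ℝ) ^ a)
    (Z : Finset W) (F : Finset (W × W)) (hF : ∀ p ∈ F, H.Adj p.1 p.2) :
    ∃ X A A', Cut (⊥ : SimpleGraph W) Z X A A' ∧ 2 * A.card ≤ Z.card ∧ 2 * A'.card ≤ Z.card ∧
      (∀ p ∈ F, ¬ (p.1 ∈ A ∧ p.2 ∈ A' ∨ p.1 ∈ A' ∧ p.2 ∈ A)) ∧
      (X.card : ℝ) ≤ K * ((Z.card + (2 * r + 2) * F.card : ℕ) : ℝ) ^ a := by
  have key : ∀ p : W × W, ∃ T : Finset V, p ∈ F → T.card ≤ 2 * r + 2 ∧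
      (∀ z ∈ T, z ∈ B p.1 ∨ z ∈ B p.2) ∧
      ∃ w : G.Walk (c p.1) (c p.2), ∀ z ∈ w.support, z ∈ T := by
    intro p
    by_cases hp : p ∈ F
    · obtain ⟨x, hx, y, hy, hxy⟩ := hM.adj _ _ (hF p hp)
      obtain ⟨w1, hl1, hs1⟩ := hM.wlk _ x hx
      obtain ⟨w2, hl2, hs2⟩ := hM.wlk _ y hy
      refine ⟨(w1.append (Walk.cons hxy w2.reverse)).support.toFinset, fun _ => ⟨?_, ?_,
        w1.append (Walk.cons hxy w2.reverse), fun z hz => by simpa using hz⟩⟩
      · refine (List.toFinset_card_le _).trans ?_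
        rw [Walk.length_support, Walk.length_append, Walk.length_cons, Walk.length_reverse]
        omega
      · intro z hz
        rw [List.mem_toFinset, Walk.mem_support_append_iff] at hz
        rcases hz with hz | hz
        · exact Or.inl (hs1 z hz)
        · rw [Walk.support_cons, List.mem_cons] at hz
          rcases hz with rfl | hz
          · exact Or.inl hx
          · exact Or.inr (hs2 z (by simpa using hz))
    · exact ⟨∅, fun h => absurd h hp⟩
  choose T hT using key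
  have cinj : ∀ u v, c u = c v → u = v := fun u v h => hM.dis u v (c u) (hM.mem u) (h ▸ hM.mem v)
  obtain ⟨S, P, Q, hc, hP, hQ, hS⟩ := hw (Z.image c) (Z.image c ∪ F.biUnion T)
  have hUZ : ((Z.image c ∪ F.biUnion T) ∩ Z.image c).card ≤ Z.card :=
    (card_le_card inter_subset_right).trans card_image_le
  have hU : (Z.image c ∪ F.biUnion T).card ≤ Z.card + (2 * r + 2) * F.card := by
    refine (card_union_le _ _).trans (Nat.add_le_add card_image_le ?_)
    rw [mul_comm]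
    exact card_biUnion_le_card_mul _ _ _ fun p hp => (hT p hp).1
  let X := Z.filter fun u => ∃ x ∈ S, x ∈ B u
  have side : ∀ R : Finset V, (Z.filter fun u => u ∉ X ∧ c u ∈ R).card ≤ (R ∩ Z.image c).card := by
    intro R
    apply card_le_card_of_injOn c
    · intro u hu
      simp only [coe_filter, Set.mem_ofPred_eq] at hu
      exact mem_coe.mpr (mem_inter.mpr ⟨hu.2.2, mem_image_of_mem _ hu.1⟩)
    · intro u _ v _ h
      exact cinj u v h
  have noX : ∀ u ∈ Z, u ∉ X → ∀ z ∈ B u, z ∉ S := fun u hu hX z hz hzS =>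
    hX (mem_filter.mpr ⟨hu, z, hzS, hz⟩)
  refine ⟨X, Z.filter fun u => u ∉ X ∧ c u ∈ P, Z.filter fun u => u ∉ X ∧ c u ∈ Q,
    ⟨fun u => ?_, ?_, ?_, ?_, ?_⟩, ?_, ?_, ?_, ?_⟩
  · constructor
    · intro hu
      by_cases hX : u ∈ X
      · exact Or.inl hX
      · rcases (hc.cov (c u)).mp (mem_union_left _ (mem_image_of_mem _ hu)) with h | h | h
        · exact absurd h (noX u hu hX _ (hM.mem u))
        · exact Or.inr (Or.inl (mem_filter.mpr ⟨hu, hX, h⟩))
        · exact Or.inr (Or.inr (mem_filter.mpr ⟨hu, hX, h⟩))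
    · rintro (h | h | h) <;> exact (mem_filter.mp h).1
  · intro u hu hu'; exact (mem_filter.mp hu').2.1 hu
  · intro u hu hu'; exact (mem_filter.mp hu').2.1 hu
  · intro u hu hu'; exact hc.pq _ (mem_filter.mp hu).2.2 (mem_filter.mp hu').2.2
  · simp
  · have := side P; omega
  · have := side Q; omega
  · intro p hp hh
    obtain ⟨-, h2, w, hw⟩ := hT p hp
    have hwU : ∀ z ∈ w.support, z ∈ Z.image c ∪ F.biUnion T := fun z hz =>
      mem_union_right _ (mem_biUnion.mpr ⟨p, hp, hw z hz⟩)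
    rcases hh with ⟨h1, h3⟩ | ⟨h1, h3⟩
    · obtain ⟨h11, h12, h13⟩ := mem_filter.mp h1
      obtain ⟨h31, h32, h33⟩ := mem_filter.mp h3
      refine hc.pq _ (walk_side hc w (fun z hz => ⟨hwU z hz, ?_⟩) h13) h33
      rcases h2 z (hw z hz) with h | h
      · exact noX _ h11 h12 z h
      · exact noX _ h31 h32 z h
    · obtain ⟨h11, h12, h13⟩ := mem_filter.mp h1
      obtain ⟨h31, h32, h33⟩ := mem_filter.mp h3
      refine hc.pq _ h33 (walk_side hc.symm w (fun z hz => ⟨hwU z hz, ?_⟩) h13)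
      rcases h2 z (hw z hz) with h | h
      · exact noX _ h11 h12 z h
      · exact noX _ h31 h32 z h
  · calc (X.card : ℝ) ≤ S.card := by exact_mod_cast hM.hit_card Z S
      _ ≤ _ := hS
      _ ≤ _ := mul_le_mul_of_nonneg_left
          (Real.rpow_le_rpow (by positivity) (by exact_mod_cast hU) ha) hK

/-- Greedy hitting set. -/
theorem hit {α ι : Type} (E : Finset α) (T : ι → Finset α) (θ : ℝ) (h0 : 0 ≤ θ) (h1 : θ ≤ 1) :
    ∀ (t : ℕ) (I : Finset ι), (∀ i ∈ I, T i ⊆ E ∧ θ * E.card < (T i).card) →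
      (I.card : ℝ) * (1 - θ) ^ t < 1 → ∃ F ⊆ E, F.card ≤ t ∧ ∀ i ∈ I, ∃ x ∈ F, x ∈ T i := by
  intro t
  induction t with
  | zero =>
    intro I _ h
    have : I.card < 1 := by exact_mod_cast (by simpa using h : (I.card : ℝ) < 1)
    have : I = ∅ := card_eq_zero.mp (by omega)
    exact ⟨∅, by simp, by simp, by simp [this]⟩
  | succ t ih =>
    intro I hI h
    rcases I.eq_empty_or_nonempty with rfl | ⟨i0, hi0⟩
    · exact ⟨∅, by simp, by simp, by simp⟩
    have hE : E.Nonempty := by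
      have h2 := (hI i0 hi0).2
      have h3 : (0 : ℝ) < (T i0).card := lt_of_le_of_lt (by positivity) h2
      exact (card_pos.mp (by exact_mod_cast h3)).mono (hI i0 hi0).1
    have hs : ∑ _x ∈ E, θ * (I.card : ℝ) ≤ ∑ x ∈ E, ((I.filter fun i => x ∈ T i).card : ℝ) := by
      have e1 : ∑ x ∈ E, ((I.filter fun i => x ∈ T i).card : ℝ) = ∑ i ∈ I, ((T i).card : ℝ) := by
        simp only [card_filter]
        push_cast
        rw [sum_comm]
        refine sum_congr rfl fun i hi => ?_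
        rw [sum_ite_mem, inter_eq_right.mpr (hI i hi).1]
        simp
      rw [e1]
      calc ∑ _x ∈ E, θ * (I.card : ℝ) = ∑ _i ∈ I, θ * (E.card : ℝ) := by
            simp only [sum_const, nsmul_eq_mul]; ring
        _ ≤ _ := sum_le_sum fun i hi => (hI i hi).2.le
    obtain ⟨x, hx, hx'⟩ := exists_le_of_sum_le hE hs
    have hc : (I.filter fun i => x ∈ T i).card + (I.filter fun i => ¬ x ∈ T i).card = I.card :=
      card_filter_add_card_filter_not _
    have hc' : ((I.filter fun i => ¬ x ∈ T i).card : ℝ) ≤ I.card * (1 - θ) := by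
      have : ((I.filter fun i => x ∈ T i).card : ℝ) + (I.filter fun i => ¬ x ∈ T i).card =
        I.card := by exact_mod_cast hc
      linarith
    obtain ⟨F, hF, hF1, hF2⟩ := ih (I.filter fun i => ¬ x ∈ T i)
      (fun i hi => hI i (mem_filter.mp hi).1) (by
        have hp : 0 ≤ (1 - θ) ^ t := pow_nonneg (by linarith) _
        calc _ ≤ I.card * (1 - θ) * (1 - θ) ^ t := mul_le_mul_of_nonneg_right hc' hp
          _ = I.card * (1 - θ) ^ (t + 1) := by ring
          _ < 1 := h)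
    refine ⟨insert x F, insert_subset hx hF, (card_insert_le _ _).trans (by omega), fun i hi => ?_⟩
    by_cases hxi : x ∈ T i
    · exact ⟨x, mem_insert_self _ _, hxi⟩
    · obtain ⟨y, hy, hy'⟩ := hF2 i (mem_filter.mpr ⟨hi, hxi⟩)
      exact ⟨y, mem_insert_of_mem hy, hy'⟩

/-- Ordered adjacent pairs inside `Z`. -/
noncomputable def Ed {W : Type} (H : SimpleGraph W) (Z : Finset W) : Finset (W × W) :=
  (Z ×ˢ Z).filter fun p => H.Adj p.1 p.2

theorem mem_Ed {W : Type} {H : SimpleGraph W} {Z : Finset W} {p : W × W} :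
    p ∈ Ed H Z ↔ p.1 ∈ Z ∧ p.2 ∈ Z ∧ H.Adj p.1 p.2 := by
  simp [Ed, and_assoc]

theorem Ed_le {W : Type} (H : SimpleGraph W) (Z : Finset W) :
    (Ed H Z).card ≤ Z.card * Z.card := by
  rw [← card_product]; exact card_filter_le _ _

theorem Ed_univ {m : ℕ} (H : SimpleGraph (Fin m)) :
    (Ed H univ).card = 2 * H.edgeSet.ncard := by
  rw [Set.ncard_eq_toFinset_card', ← edgeFinset, ← H.dart_card_eq_twice_card_edges]
  rw [← card_univ]
  symm
  apply card_bij (fun d _ => d.toProd)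
  · intro d _; exact mem_Ed.mpr ⟨mem_univ _, mem_univ _, d.adj⟩
  · intro d _ d' _ h; exact Dart.ext _ _ h
  · intro p hp; exact ⟨⟨p, (mem_Ed.mp hp).2.2⟩, mem_univ _, rfl⟩

theorem sparse {W : Type} (H : SimpleGraph W) (Z : Finset W) (hZ : 1 ≤ Z.card) (D : ℕ)
    (hD : 2 ≤ D) : ∃ F ⊆ Ed H Z, F.card ≤ D * Z.card ∧ ∀ A ⊆ Z, ∀ A' ⊆ Z,
      (∀ p ∈ F, ¬ (p.1 ∈ A ∧ p.2 ∈ A' ∨ p.1 ∈ A' ∧ p.2 ∈ A)) →
      D * ((Ed H Z).filter fun p => p.1 ∈ A ∧ p.2 ∈ A' ∨ p.1 ∈ A' ∧ p.2 ∈ A).card ≤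
        2 * (Ed H Z).card := by
  let T : Finset W × Finset W → Finset (W × W) := fun q =>
    (Ed H Z).filter fun p => p.1 ∈ q.1 ∧ p.2 ∈ q.2 ∨ p.1 ∈ q.2 ∧ p.2 ∈ q.1
  let I := (Z.powerset ×ˢ Z.powerset).filter fun q => 2 * (Ed H Z).card < D * (T q).card
  have hD' : (2 : ℝ) ≤ D := by exact_mod_cast hD
  have h1 : (2 : ℝ) / D ≤ 1 := by rw [div_le_one (by linarith)]; exact hD'
  obtain ⟨F, hF, hF1, hF2⟩ := hit (Ed H Z) T (2 / D) (by positivity) h1 (D * Z.card) I
    (fun q hq => ⟨filter_subset _ _, by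
      have : (2 * (Ed H Z).card : ℝ) < D * (T q).card := by exact_mod_cast (mem_filter.mp hq).2
      rw [div_mul_eq_mul_div, div_lt_iff₀ (by linarith)]
      linarith⟩) (by
      have hI : (I.card : ℝ) ≤ 4 ^ Z.card := by
        have : I.card ≤ 2 ^ Z.card * 2 ^ Z.card := by
          refine (card_filter_le _ _).trans ?_
          rw [card_product, card_powerset]
        calc (I.card : ℝ) ≤ 2 ^ Z.card * 2 ^ Z.card := by exact_mod_cast this
          _ = 4 ^ Z.card := by rw [← mul_pow]; norm_num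
      have h2 : (1 - 2 / D : ℝ) ^ D ≤ Real.exp (-2) := Real.one_sub_div_pow_le_exp_neg hD'
      have h3 : Real.exp (-2) < 1 / 4 := by
        have e1 : Real.exp (-2) * (Real.exp 1 * Real.exp 1) = 1 := by
          rw [← Real.exp_add, ← Real.exp_add]; norm_num
        have e2 := Real.exp_one_gt_d9
        have e3 := Real.exp_pos (-2)
        nlinarith [mul_pos e3 (by nlinarith : (0 : ℝ) < Real.exp 1 * Real.exp 1 - 4)]
      have h4 : 0 ≤ (1 - 2 / D : ℝ) ^ D := pow_nonneg (by linarith) _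
      calc (I.card : ℝ) * (1 - 2 / D) ^ (D * Z.card)
          ≤ 4 ^ Z.card * ((1 - 2 / D) ^ D) ^ Z.card := by
            rw [pow_mul]; exact mul_le_mul_of_nonneg_right hI (pow_nonneg h4 _)
        _ = (4 * (1 - 2 / D) ^ D) ^ Z.card := by rw [mul_pow]
        _ < 1 := pow_lt_one₀ (by positivity) (by linarith) (by omega))
  refine ⟨F, hF, hF1, fun A hA A' hA' h => ?_⟩
  by_contra hh
  obtain ⟨p, hp, hp'⟩ := hF2 (A, A') (mem_filter.mpr ⟨by simp [hA, hA'], not_le.mp hh⟩)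
  exact h p hp (mem_filter.mp hp').2

theorem Ed_split {W : Type} (H : SimpleGraph W) {G' : SimpleGraph W} {Z X A A' : Finset W}
    (hc : Cut G' Z X A A') : (Ed H Z).card ≤ (Ed H (X ∪ A)).card + (Ed H (X ∪ A')).card +
      ((Ed H Z).filter fun p => p.1 ∈ A ∧ p.2 ∈ A' ∨ p.1 ∈ A' ∧ p.2 ∈ A).card := by
  refine le_trans (card_le_card ?_) ((card_union_le _ _).trans
    (Nat.add_le_add_right (card_union_le _ _) _))
  intro p hp
  have hp' := mem_Ed.mp hp
  simp only [mem_union, mem_filter, mem_Ed]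
  have h1 := (hc.cov p.1).mp hp'.1
  have h2 := (hc.cov p.2).mp hp'.2.1
  tauto

end Pool.Agent.P.MP_2f3b43_co
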