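import Pool.Agent.P.MP_2f3b43_co.Defs

namespace Pool.Agent.P.MP_2f3b43_co

open SimpleGraph Finset
open scoped Classical

/-- `U` is split into `S`, `P`, `Q` with no edge between `P` and `Q`. -/
structure Cut {V : Type} (G : SimpleGraph V) (U S P Q : Finset V) : Prop where
  cov : ∀ x, x ∈ U ↔ x ∈ S ∨ x ∈ P ∨ x ∈ Q
  sp : ∀ x ∈ S, x ∉ P
  sq : ∀ x ∈ S, x ∉ Q
  pq : ∀ x ∈ P, x ∉ Q
  noe : ∀ x ∈ P, ∀ y ∈ Q, ¬ G.Adj x y

theorem Cut.symm {V : Type} {G : SimpleGraph V} {U S P Q : Finset V} (h : Cut G U S P Q) :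
    Cut G U S Q P :=
  ⟨fun x => by rw [h.cov]; tauto, h.sq, h.sp, fun x hx hx' => h.pq x hx' hx,
    fun x hx y hy hxy => h.noe y hy x hx hxy.symm⟩

theorem Cut.card {V : Type} {G : SimpleGraph V} {U S P Q : Finset V} (h : Cut G U S P Q) :
    U.card = S.card + P.card + Q.card := by
  have : U = (S ∪ P) ∪ Q := by
    ext x; rw [h.cov]; simp only [mem_union]; tauto
  rw [this, card_union_of_disjoint, card_union_of_disjoint]
  · exact Finset.disjoint_left.mpr h.sp
  · rw [Finset.disjoint_left]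
    intro x hx
    rcases mem_union.mp hx with hx | hx
    · exact h.sq x hx
    · exact h.pq x hx

/-- All vertex subsets have small balanced cuts. -/
def HSep {V : Type} (G : SimpleGraph V) (K a : ℝ) : Prop :=
  ∀ U : Finset V, ∃ S P Q, Cut G U S P Q ∧ 3 * P.card ≤ 2 * U.card ∧ 3 * Q.card ≤ 2 * U.card ∧
    (S.card : ℝ) ≤ K * (U.card : ℝ) ^ a

theorem bip {n : ℕ} (G : SimpleGraph (Fin n)) (S : Set (Fin n)) (h : BalSep G S) :
    ∃ P Q, Cut G univ S.toFinset P Q ∧ 3 * P.card ≤ 2 * n ∧ 3 * Q.card ≤ 2 * n := by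
  let F : Finset (Finset (Fin n)) := univ.filter fun P =>
    (∀ x ∈ P, x ∉ S) ∧ (∀ x ∈ P, ∀ y, y ∉ S → G.Adj x y → y ∈ P) ∧ 3 * P.card ≤ 2 * n
  have hne : F.Nonempty := ⟨∅, by simp [F]⟩
  obtain ⟨P, hP, hmax⟩ := exists_max_image F card hne
  simp only [F, mem_filter, mem_univ, true_and] at hP hmax
  obtain ⟨hP1, hP2, hP3⟩ := hP
  let Q : Finset (Fin n) := univ.filter fun x => x ∉ S ∧ x ∉ P
  have hcut : Cut G univ S.toFinset P Q := by
    refine ⟨fun x => ?_, fun x hx hx' => hP1 x hx' (by simpa using hx), fun x hx hx' => ?_,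
      fun x hx hx' => ?_, fun x hx y hy hxy => ?_⟩
    · simp only [mem_univ, Set.mem_toFinset, Q, mem_filter, true_and]; tauto
    · simp only [Q, mem_filter, Set.mem_toFinset] at hx hx'; tauto
    · simp only [Q, mem_filter] at hx'; tauto
    · simp only [Q, mem_filter] at hy; exact hy.2.2 (hP2 x hx y hy.2.1 hxy)
  refine ⟨P, Q, hcut, hP3, ?_⟩
  by_contra hQ
  have hc := hcut.card
  simp only [card_univ, Fintype.card_fin] at hc
  have hQne : Q.Nonempty := by
    rw [← card_pos]; omega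
  obtain ⟨x, hx⟩ := hQne
  simp only [Q, mem_filter, mem_univ, true_and] at hx
  let c := (G.induce Sᶜ).connectedComponentMk ⟨x, hx.1⟩
  let C : Finset (Fin n) := univ.filter fun y => ∃ hy : y ∉ S, (⟨y, hy⟩ : (Sᶜ : Set (Fin n))) ∈ c.supp
  have hCcard : C.card = c.supp.ncard := by
    have : (C : Set (Fin n)) = Subtype.val '' c.supp := by
      ext y
      simp only [C, coe_filter, mem_univ, true_and, Set.mem_ofPred_eq, Set.mem_image]
      constructor
      · rintro ⟨hy, h⟩; exact ⟨_, h, rfl⟩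
      · rintro ⟨⟨z, hz⟩, h, rfl⟩; exact ⟨hz, h⟩
    rw [← Set.ncard_coe_finset, this, Set.ncard_image_of_injective _ Subtype.val_injective]
  have hC1 : ∀ y ∈ C, y ∉ S := by
    intro y hy
    simp only [C, mem_filter, mem_univ, true_and] at hy
    exact hy.1
  have hC2 : ∀ y ∈ C, ∀ z, z ∉ S → G.Adj y z → z ∈ C := by
    intro y hy z hz hyz
    simp only [C, mem_filter, mem_univ, true_and] at hy ⊢
    obtain ⟨hy, h⟩ := hy
    refine ⟨hz, ?_⟩
    rw [ConnectedComponent.mem_supp_iff] at h ⊢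
    rw [← h]
    exact ConnectedComponent.sound (Adj.reachable (by simpa using hyz.symm))
  have hC3 : 3 * C.card ≤ 2 * n := by rw [hCcard]; exact h c
  have hxC : x ∈ C := by
    simp only [C, mem_filter, mem_univ, true_and]
    exact ⟨hx.1, by rw [ConnectedComponent.mem_supp_iff]⟩
  have h1 := hmax C ⟨hC1, hC2, hC3⟩
  have h2 : (P ∪ C).card ≤ P.card + C.card := card_union_le _ _
  have h3 := hmax (P ∪ C) ⟨?_, ?_, by omega⟩
  · have : P.card < (P ∪ C).card :=
      card_lt_card ⟨subset_union_left, fun hh => hx.2 (hh (mem_union_right _ hxC))⟩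
    omega
  · intro y hy
    rcases mem_union.mp hy with hy | hy
    · exact hP1 y hy
    · exact hC1 y hy
  · intro y hy z hz hyz
    rcases mem_union.mp hy with hy | hy
    · exact mem_union_left _ (hP2 y hy z hz hyz)
    · exact mem_union_right _ (hC2 y hy z hz hyz)

theorem hsep_of_class (C : GClass) (a : ℝ) (ha : 0 ≤ a) (hm : Mono C) (hs : SepBound C a) :
    ∃ K : ℝ, 1 ≤ K ∧ ∀ n : ℕ, ∀ G ∈ C n, HSep G K a := by
  obtain ⟨s, hO, hs⟩ := hs
  obtain ⟨c, hc⟩ := hO.bound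
  obtain ⟨n0, hn0⟩ := Filter.eventually_atTop.mp hc
  refine ⟨max (max c n0) 1, le_max_right _ _, fun n G hG U => ?_⟩
  let e : Fin U.card ↪ Fin n := (U.orderEmbOfFin rfl).toEmbedding
  have he : ∀ x, x ∈ U ↔ ∃ i, e i = x := by
    intro x
    have := Finset.range_orderEmbOfFin U (rfl : U.card = U.card)
    rw [← mem_coe, ← this]; rfl
  have hH : G.comap e ∈ C U.card := hm _ _ _ _ hG ⟨(Embedding.comap e G).toCopy⟩
  obtain ⟨S, hS, hSc⟩ := hs _ _ hH
  obtain ⟨P, Q, hcut, hP, hQ⟩ := bip _ S hS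
  refine ⟨S.toFinset.map e, P.map e, Q.map e, ⟨fun x => ?_, ?_, ?_, ?_, ?_⟩, by simpa using hP,
    by simpa using hQ, ?_⟩
  · rw [he]
    simp only [mem_map]
    constructor
    · rintro ⟨i, rfl⟩
      rcases (hcut.cov i).mp (mem_univ _) with h | h | h
      · exact Or.inl ⟨i, h, rfl⟩
      · exact Or.inr (Or.inl ⟨i, h, rfl⟩)
      · exact Or.inr (Or.inr ⟨i, h, rfl⟩)
    · rintro (⟨i, -, h⟩ | ⟨i, -, h⟩ | ⟨i, -, h⟩) <;> exact ⟨i, h⟩
  · intro x hx hx'
    obtain ⟨i, hi, rfl⟩ := mem_map.mp hx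
    exact hcut.sp i hi ((mem_map' e).mp hx')
  · intro x hx hx'
    obtain ⟨i, hi, rfl⟩ := mem_map.mp hx
    exact hcut.sq i hi ((mem_map' e).mp hx')
  · intro x hx hx'
    obtain ⟨i, hi, rfl⟩ := mem_map.mp hx
    exact hcut.pq i hi ((mem_map' e).mp hx')
  · intro x hx y hy hxy
    obtain ⟨i, hi, rfl⟩ := mem_map.mp hx
    obtain ⟨j, hj, rfl⟩ := mem_map.mp hy
    exact hcut.noe i hi j hj hxy
  · rw [card_map, ← Set.ncard_eq_toFinset_card']
    have hp : 0 ≤ (U.card : ℝ) ^ a := by positivity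
    by_cases hU : n0 ≤ U.card
    · have h1 := hn0 _ hU
      rw [Real.norm_eq_abs, Real.norm_eq_abs, abs_of_nonneg hp] at h1
      calc (S.ncard : ℝ) ≤ s U.card := hSc
        _ ≤ |s U.card| := le_abs_self _
        _ ≤ c * (U.card : ℝ) ^ a := h1
        _ ≤ _ := mul_le_mul_of_nonneg_right ((le_max_left _ _).trans (le_max_left _ _)) hp
    · have h1 : S.ncard ≤ U.card := by
        simpa using Set.ncard_le_ncard (Set.subset_univ S)
      rcases Nat.eq_zero_or_pos U.card with h0 | h0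
      · have : S.ncard = 0 := by omega
        rw [this, Nat.cast_zero]
        exact mul_nonneg (zero_le_one.trans (le_max_right _ _)) hp
      · have h2 : (1 : ℝ) ≤ (U.card : ℝ) ^ a := Real.one_le_rpow (by exact_mod_cast h0) ha
        have h3 : (S.ncard : ℝ) ≤ n0 := by exact_mod_cast (by omega : S.ncard ≤ n0)
        have h4 : (n0 : ℝ) ≤ max (max c n0) 1 := (le_max_right _ _).trans (le_max_left _ _)
        nlinarith [Nat.cast_nonneg (α := ℝ) n0]

/-- Weighted balanced cuts, by peeling. -/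
theorem wsep {V : Type} (G : SimpleGraph V) (K a : ℝ) (hK : 0 ≤ K) (ha : 0 < a) (h : HSep G K a)
    (Z : Finset V) (N : ℕ) : ∀ (k : ℕ) (U : Finset V), U.card = k → ∀ a0 b0 : ℕ, 2 * a0 ≤ N →
      2 * b0 ≤ N → a0 + b0 + (U ∩ Z).card ≤ N → ∃ S A B, Cut G U S A B ∧
        2 * (a0 + (A ∩ Z).card) ≤ N ∧ 2 * (b0 + (B ∩ Z).card) ≤ N ∧
        (S.card : ℝ) ≤ K / (1 - (2 / 3 : ℝ) ^ a) * (U.card : ℝ) ^ a := by
  have hq : (2 / 3 : ℝ) ^ a < 1 := Real.rpow_lt_one (by norm_num) (by norm_num) ha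
  have hq0 : 0 < (2 / 3 : ℝ) ^ a := by positivity
  intro k
  induction k using Nat.strong_induction_on with
  | _ k ih =>
  intro U hU
  rcases Nat.eq_zero_or_pos k with hk | hk
  · intro a0 b0 h1 h2 _
    have : U = ∅ := card_eq_zero.mp (by omega)
    subst this
    refine ⟨∅, ∅, ∅, ⟨by simp, by simp, by simp, by simp, by simp⟩, by simpa, by simpa, ?_⟩
    simp only [card_empty, Nat.cast_zero]
    rw [Real.zero_rpow ha.ne']; simp
  -- a cut with the light side first
  have key : ∃ S P Q, Cut G U S P Q ∧ 3 * Q.card ≤ 2 * U.card ∧ (P ∩ Z).card ≤ (Q ∩ Z).card ∧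
      (S.card : ℝ) ≤ K * (U.card : ℝ) ^ a := by
    obtain ⟨S, P, Q, hc, hP, hQ, hS⟩ := h U
    rcases le_total (P ∩ Z).card (Q ∩ Z).card with hh | hh
    · exact ⟨S, P, Q, hc, hQ, hh, hS⟩
    · exact ⟨S, Q, P, hc.symm, hP, hh, hS⟩
  obtain ⟨S, P, Q, hc, hQ, hPQ, hS⟩ := key
  have hsum : (P ∩ Z).card + (Q ∩ Z).card ≤ (U ∩ Z).card := by
    rw [← card_union_of_disjoint]
    · apply card_le_card
      intro x hx
      simp only [mem_union, mem_inter, hc.cov] at hx ⊢
      tauto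
    · rw [Finset.disjoint_left]
      intro x hx hx'
      exact hc.pq x (mem_inter.mp hx).1 (mem_inter.mp hx').1
  have main : ∀ a0 b0 : ℕ, a0 ≤ b0 → 2 * b0 ≤ N → a0 + b0 + (U ∩ Z).card ≤ N →
      ∃ S A B, Cut G U S A B ∧
        2 * (a0 + (A ∩ Z).card) ≤ N ∧ 2 * (b0 + (B ∩ Z).card) ≤ N ∧
        (S.card : ℝ) ≤ K / (1 - (2 / 3 : ℝ) ^ a) * (U.card : ℝ) ^ a := by
    intro a0 b0 hab h2 h3
    obtain ⟨S', A, B, hc', hA, hB, hS'⟩ :=
      ih Q.card (by omega) Q rfl (a0 + (P ∩ Z).card) b0 (by omega) h2 (by omega)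
    have hQ' := hc'.cov
    refine ⟨S ∪ S', P ∪ A, B, ⟨fun x => ?_, ?_, ?_, ?_, ?_⟩, ?_, hB, ?_⟩
    · rw [hc.cov, hQ']; simp only [mem_union]; tauto
    · intro x hx hx'
      rcases mem_union.mp hx with hx | hx <;> rcases mem_union.mp hx' with hx' | hx'
      · exact hc.sp x hx hx'
      · exact hc.sq x hx ((hQ' x).mpr (by tauto))
      · exact hc.pq x hx' ((hQ' x).mpr (by tauto))
      · exact hc'.sp x hx hx'
    · intro x hx hx'
      rcases mem_union.mp hx with hx | hx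
      · exact hc.sq x hx ((hQ' x).mpr (by tauto))
      · exact hc'.sq x hx hx'
    · intro x hx hx'
      rcases mem_union.mp hx with hx | hx
      · exact hc.pq x hx ((hQ' x).mpr (by tauto))
      · exact hc'.pq x hx hx'
    · intro x hx y hy
      rcases mem_union.mp hx with hx | hx
      · exact hc.noe x hx y ((hQ' y).mpr (by tauto))
      · exact hc'.noe x hx y hy
    · have : ((P ∪ A) ∩ Z).card ≤ (P ∩ Z).card + (A ∩ Z).card := by
        rw [union_inter_distrib_right]; exact card_union_le _ _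
      omega
    · have h4 : ((S ∪ S').card : ℝ) ≤ S.card + S'.card := by exact_mod_cast card_union_le _ _
      have h5 : (Q.card : ℝ) ^ a ≤ (2 / 3 : ℝ) ^ a * (U.card : ℝ) ^ a := by
        rw [← Real.mul_rpow (by norm_num) (by positivity)]
        apply Real.rpow_le_rpow (by positivity) _ ha.le
        have : (3 * Q.card : ℝ) ≤ 2 * U.card := by exact_mod_cast hQ
        linarith
      have h6 : 0 ≤ K / (1 - (2 / 3 : ℝ) ^ a) := div_nonneg hK (by linarith)
      have h7 := mul_le_mul_of_nonneg_left h5 h6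
      have h8 : K / (1 - (2 / 3 : ℝ) ^ a) * (U.card : ℝ) ^ a =
          K * (U.card : ℝ) ^ a + K / (1 - (2 / 3 : ℝ) ^ a) * ((2 / 3 : ℝ) ^ a * (U.card : ℝ) ^ a) := by
        have : (1 - (2 / 3 : ℝ) ^ a) ≠ 0 := by linarith
        field_simp
        ring
      linarith
  intro a0 b0 h1 h2 h3
  rcases le_total a0 b0 with hab | hab
  · exact main a0 b0 hab h2 h3
  · obtain ⟨S, A, B, hc, hA, hB, hS⟩ := main b0 a0 hab h1 (by omega)
    exact ⟨S, B, A, hc.symm, hB, hA, hS⟩

/-- A walk that avoids `S` stays on its side of a cut. -/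
theorem walk_side {V : Type} {G : SimpleGraph V} {U S P Q : Finset V} (hc : Cut G U S P Q) :
    ∀ {x y : V} (w : G.Walk x y), (∀ z ∈ w.support, z ∈ U ∧ z ∉ S) → x ∈ P → y ∈ P := by
  intro x y w
  induction w with
  | nil => intro _ h; exact h
  | @cons u v t huv w ih =>
    intro hw hu
    have hv := hw v (by simp)
    apply ih (fun z hz => hw z (by simp [hz]))
    rcases (hc.cov v).mp hv.1 with h | h | h
    · exact absurd h hv.2
    · exact h
    · exact absurd huv (hc.noe u hu v h)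

end Pool.Agent.P.MP_2f3b43_co
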