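import Pool.Agent.P.MP_2f3b43_co.Model

namespace Pool.Agent.P.MP_2f3b43_co

open SimpleGraph Finset
open scoped Classical

theorem scales {W : Type} (H : SimpleGraph W) (N1 : ℝ) (hN : 0 ≤ N1)
    (hstep : ∀ (k : ℕ) (Z : Finset W), N1 * (4 / 3) ^ k < Z.card → ∃ X A A',
      Cut (⊥ : SimpleGraph W) Z X A A' ∧ 2 * A.card ≤ Z.card ∧ 2 * A'.card ≤ Z.card ∧
      16 * (k + 1) ^ 2 * X.card ≤ Z.card ∧
      16 * (k + 1) ^ 2 *
        ((Ed H Z).filter fun p => p.1 ∈ A ∧ p.2 ∈ A' ∨ p.1 ∈ A' ∧ p.2 ∈ A).card ≤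
        2 * (Ed H Z).card) :
    ∀ (k : ℕ) (Z : Finset W), (Z.card : ℝ) ≤ N1 * (4 / 3) ^ k →
      ((Ed H Z).card : ℝ) ≤ N1 * (2 - 1 / (k + 1)) * Z.card := by
  intro k
  induction k with
  | zero =>
    intro Z hZ
    have h1 : ((Ed H Z).card : ℝ) ≤ Z.card * Z.card := by exact_mod_cast Ed_le H Z
    have h2 : (Z.card : ℝ) ≤ N1 := by simpa using hZ
    have h3 := mul_le_mul_of_nonneg_right h2 (Nat.cast_nonneg (α := ℝ) Z.card)
    norm_num
    linarith
  | succ k ih =>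
    intro Z hZ
    have hk : (0 : ℝ) ≤ k := Nat.cast_nonneg k
    have hz0 : (0 : ℝ) ≤ Z.card := Nat.cast_nonneg _
    have hgap : 1 / (2 * ((k : ℝ) + 1) ^ 2) ≤ 1 / (k + 1) - 1 / (k + 1 + 1) := by
      rw [div_sub_div _ _ (by positivity) (by positivity), div_le_div_iff₀ (by positivity)
        (by positivity)]
      nlinarith
    have hpos : (0 : ℝ) < 1 / (2 * ((k : ℝ) + 1) ^ 2) := by positivity
    push_cast
    by_cases hs : (Z.card : ℝ) ≤ N1 * (4 / 3) ^ k
    · refine (ih Z hs).trans (mul_le_mul_of_nonneg_right (mul_le_mul_of_nonneg_left ?_ hN) hz0)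
      linarith
    obtain ⟨X, A, A', hc, hA, hA', hX, hcr⟩ := hstep k Z (not_le.mp hs)
    have hcard := hc.card
    have hsq : 1 ≤ (k + 1) ^ 2 := Nat.one_le_pow _ _ (by omega)
    have hX16 : 16 * X.card ≤ Z.card := by nlinarith
    have small : ∀ R : Finset W, 2 * R.card ≤ Z.card → ((Ed H (X ∪ R)).card : ℝ) ≤
        N1 * (2 - 1 / (k + 1)) * (X.card + R.card) := by
      intro R hR
      have h1 : (X ∪ R).card ≤ X.card + R.card := card_union_le _ _
      have h2 : ((X ∪ R).card : ℝ) ≤ X.card + R.card := by exact_mod_cast h1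
      have h3 : (4 * (X ∪ R).card : ℝ) ≤ 3 * Z.card := by
        exact_mod_cast (by omega : 4 * (X ∪ R).card ≤ 3 * Z.card)
      refine (ih _ ?_).trans (mul_le_mul_of_nonneg_left h2 (mul_nonneg hN ?_))
      · rw [pow_succ] at hZ; linarith
      · have : 1 / ((k : ℝ) + 1) ≤ 1 := by rw [div_le_one (by positivity)]; linarith
        linarith
    have h1 := small A hA
    have h2 := small A' hA'
    have h3 := Ed_split H hc
    set cr := ((Ed H Z).filter fun p => p.1 ∈ A ∧ p.2 ∈ A' ∨ p.1 ∈ A' ∧ p.2 ∈ A).card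
    have h3' : ((Ed H Z).card : ℝ) ≤ (Ed H (X ∪ A)).card + (Ed H (X ∪ A')).card + cr := by
      exact_mod_cast h3
    have h4 : (Z.card : ℝ) = X.card + A.card + A'.card := by exact_mod_cast hcard
    have h5 : (16 * ((k : ℝ) + 1) ^ 2) * X.card ≤ Z.card := by exact_mod_cast hX
    have h6 : (16 * ((k : ℝ) + 1) ^ 2) * cr ≤ 2 * (Ed H Z).card := by exact_mod_cast hcr
    set η : ℝ := 1 / (2 * ((k : ℝ) + 1) ^ 2) with hη
    have hη1 : η ≤ 1 / 2 := by
      rw [hη]; apply one_div_le_one_div_of_le (by norm_num); nlinarith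
    have hD : (16 * ((k : ℝ) + 1) ^ 2) * η = 8 := by rw [hη]; field_simp; norm_num
    have h5' : 8 * (X.card : ℝ) ≤ η * Z.card := by
      have := mul_le_mul_of_nonneg_left h5 hpos.le
      calc 8 * (X.card : ℝ) = η * (16 * ((k : ℝ) + 1) ^ 2 * X.card) := by rw [← hD]; ring
        _ ≤ _ := this
    have h6' : 4 * (cr : ℝ) ≤ η * (Ed H Z).card := by
      have := mul_le_mul_of_nonneg_left h6 hpos.le
      have e : η * (16 * ((k : ℝ) + 1) ^ 2 * cr) = 8 * cr := by rw [← hD]; ring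
      linarith
    set g : ℝ := N1 * (2 - 1 / (k + 1)) with hg
    have hg0 : 0 ≤ g := mul_nonneg hN (by
      have : 1 / ((k : ℝ) + 1) ≤ 1 := by rw [div_le_one (by positivity)]; linarith
      linarith)
    have hg2 : g ≤ 2 * N1 := by
      have : 0 ≤ N1 * (1 / ((k : ℝ) + 1)) := by positivity
      rw [hg]; linarith
    set e : ℝ := ((Ed H Z).card : ℝ)
    set N : ℝ := (Z.card : ℝ)
    have h7 : e * (1 - η / 4) ≤ g * N * (1 + η / 8) := by
      have : g * (X.card : ℝ) ≤ g * (η * N / 8) := mul_le_mul_of_nonneg_left (by linarith) hg0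
      have e2 : g * (X.card + A.card) + g * (X.card + A'.card) = g * N + g * X.card := by
        rw [h4]; ring
      nlinarith
    have h8 : e ≤ g * N * (1 + η / 2) := by
      have hgN : 0 ≤ g * N := mul_nonneg hg0 hz0
      have : g * N * (1 + η / 8) ≤ g * N * (1 + η / 2) * (1 - η / 4) := by
        rw [mul_assoc (g * N)]
        apply mul_le_mul_of_nonneg_left _ hgN
        nlinarith
      exact le_of_mul_le_mul_right (h7.trans this) (by linarith)
    have h9 : g * (1 + η / 2) ≤ N1 * (2 - 1 / (k + 1 + 1)) := by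
      have a1 : g * (η / 2) ≤ 2 * N1 * (η / 2) := mul_le_mul_of_nonneg_right hg2 (by linarith)
      have a2 := mul_le_mul_of_nonneg_left hgap hN
      have a3 : N1 * (2 - 1 / (k + 1 + 1)) = g + N1 * (1 / (k + 1) - 1 / (k + 1 + 1)) := by
        rw [hg]; ring
      nlinarith
    calc e ≤ g * (1 + η / 2) * N := by linarith
      _ ≤ _ := mul_le_mul_of_nonneg_right h9 hz0

theorem poly_le_geom (q : ℝ) (hq : 1 < q) : ∃ M : ℝ, 0 < M ∧ ∀ k : ℕ, ((k : ℝ) + 1) ^ 4 ≤ M * q ^ k := by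
  obtain ⟨M, hM⟩ := (tendsto_pow_const_div_const_pow_of_one_lt 4 hq).bddAbove_range
  have h : ∀ k : ℕ, ((k : ℝ) + 1) ^ 4 ≤ M * q * q ^ k := by
    intro k
    have := hM (Set.mem_range_self (k + 1))
    rw [div_le_iff₀ (by positivity)] at this
    push_cast at this
    calc _ ≤ _ := this
      _ = _ := by ring
  refine ⟨M * q, ?_, h⟩
  have := h 0
  simp at this
  linarith

theorem up (δ K : ℝ) (h0 : 0 < δ) (h1 : δ < 1) (hK : 1 ≤ K) : ∃ C : ℝ, 0 ≤ C ∧
    ∀ {V W : Type} (G : SimpleGraph V) (H : SimpleGraph W) (r : ℕ) (B : W → Finset V) (c : W → V),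
      HSep G K (1 - δ) → Model G H r B c → 1 ≤ r → ∀ Z : Finset W,
        ((Ed H Z).card : ℝ) ≤ C * (r : ℝ) ^ (1 / δ - 1) * Z.card := by
  have ha : 0 < 1 - δ := by linarith
  have hq : (2 / 3 : ℝ) ^ (1 - δ) < 1 := Real.rpow_lt_one (by norm_num) (by norm_num) ha
  set K1 := K / (1 - (2 / 3 : ℝ) ^ (1 - δ)) with hK1
  have hK10 : 0 < K1 := div_pos (by linarith) (by linarith)
  obtain ⟨M, hM0, hM⟩ := poly_le_geom ((4 / 3 : ℝ) ^ δ) (Real.one_lt_rpow (by norm_num) h0)
  set C0 : ℝ := (256 * M * K1 * 5 ^ (1 - δ)) ^ (1 / δ) with hC0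
  have hC00 : 0 < C0 := by positivity
  refine ⟨2 * C0, by positivity, fun {V W} G H r B c hG hM' hr Z => ?_⟩
  have hr' : (1 : ℝ) ≤ r := by exact_mod_cast hr
  set N1 : ℝ := C0 * (r : ℝ) ^ (1 / δ - 1) with hN1
  have hN0 : 0 < N1 := by positivity
  have hNδ : N1 ^ δ = 256 * M * (K1 * (5 * r) ^ (1 - δ)) := by
    rw [hN1, Real.mul_rpow hC00.le (by positivity), hC0, ← Real.rpow_mul (by positivity),
      ← Real.rpow_mul (by positivity), Real.mul_rpow (x := 5) (by norm_num) (by positivity)]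
    have e1 : 1 / δ * δ = 1 := by field_simp
    have e2 : (1 / δ - 1) * δ = 1 - δ := by field_simp
    rw [e1, e2, Real.rpow_one]; ring
  have hw : ∀ Z U : Finset V, ∃ S P Q, Cut G U S P Q ∧ 2 * (P ∩ Z).card ≤ (U ∩ Z).card ∧
      2 * (Q ∩ Z).card ≤ (U ∩ Z).card ∧ (S.card : ℝ) ≤ K1 * (U.card : ℝ) ^ (1 - δ) := by
    intro Z U
    obtain ⟨S, P, Q, h1, h2, h3, h4⟩ := wsep G K (1 - δ) (by linarith) ha hG Z (U ∩ Z).card _ U rfl
      0 0 (by omega) (by omega) (by omega)
    exact ⟨S, P, Q, h1, by omega, by omega, h4⟩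
  have main := scales H N1 hN0.le (by
    intro k Z hZ
    have hZ0 : (0 : ℝ) < Z.card := lt_trans (by positivity) hZ
    have hZ1 : 1 ≤ Z.card := by exact_mod_cast hZ0
    have hsq : 1 ≤ (k + 1) ^ 2 := Nat.one_le_pow _ _ (by omega)
    set D : ℕ := 16 * (k + 1) ^ 2 with hD
    obtain ⟨F, hF, hF1, hF2⟩ := sparse H Z hZ1 D (by omega)
    obtain ⟨X, A, A', hc, hA, hA', hno, hX⟩ := hM'.hcut K1 (1 - δ) hK10.le ha.le hw Z F
      fun p hp => (mem_Ed.mp (hF hp)).2.2
    refine ⟨X, A, A', hc, hA, hA', ?_, hF2 A (fun u hu => (hc.cov u).mpr (by tauto)) A'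
      (fun u hu => (hc.cov u).mpr (by tauto)) hno⟩
    have hD1 : (1 : ℝ) ≤ D := by exact_mod_cast (by omega : 1 ≤ D)
    have b1 : Z.card + (2 * r + 2) * F.card ≤ 5 * r * (D * Z.card) := by
      have : Z.card ≤ r * (D * Z.card) := by
        calc Z.card = 1 * (1 * Z.card) := by ring
          _ ≤ r * (D * Z.card) := Nat.mul_le_mul hr (Nat.mul_le_mul_right _ (by omega))
      have : (2 * r + 2) * F.card ≤ 4 * r * (D * Z.card) := Nat.mul_le_mul (by omega) hF1
      linarith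
    have b2 : ((Z.card + (2 * r + 2) * F.card : ℕ) : ℝ) ^ (1 - δ) ≤
        (5 * r) ^ (1 - δ) * (D * (Z.card : ℝ) ^ (1 - δ)) := by
      calc _ ≤ ((5 * r) * (D * Z.card) : ℝ) ^ (1 - δ) :=
            Real.rpow_le_rpow (by positivity) (by exact_mod_cast b1) ha.le
        _ = (5 * r) ^ (1 - δ) * ((D : ℝ) ^ (1 - δ) * (Z.card : ℝ) ^ (1 - δ)) := by
            rw [Real.mul_rpow (by positivity) (by positivity),
              Real.mul_rpow (x := (D : ℝ)) (by positivity) (by positivity)]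
        _ ≤ _ := by
            apply mul_le_mul_of_nonneg_left _ (by positivity)
            apply mul_le_mul_of_nonneg_right _ (by positivity)
            exact Real.rpow_le_self_of_one_le hD1 (by linarith)
    have b3 : K1 * (5 * r) ^ (1 - δ) * (D * D) ≤ (Z.card : ℝ) ^ δ := by
      have e1 : (D * D : ℝ) = 256 * ((k : ℝ) + 1) ^ 4 := by rw [hD]; push_cast; ring
      calc K1 * (5 * r) ^ (1 - δ) * (D * D)
          ≤ K1 * (5 * r) ^ (1 - δ) * (256 * (M * ((4 / 3 : ℝ) ^ δ) ^ k)) := by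
            rw [e1]
            apply mul_le_mul_of_nonneg_left _ (by positivity)
            linarith [hM k]
        _ = (N1 * (4 / 3) ^ k) ^ δ := by
            rw [Real.mul_rpow hN0.le (by positivity), hNδ, ← Real.rpow_natCast,
              ← Real.rpow_mul (by norm_num), ← Real.rpow_natCast,
              ← Real.rpow_mul (by norm_num), mul_comm δ]
            ring
        _ ≤ _ := Real.rpow_le_rpow (by positivity) hZ.le h0.le
    have b4 : (D : ℝ) * X.card ≤ Z.card := by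
      calc (D : ℝ) * X.card ≤ D * (K1 * ((5 * r) ^ (1 - δ) * (D * (Z.card : ℝ) ^ (1 - δ)))) :=
            mul_le_mul_of_nonneg_left
              (hX.trans (mul_le_mul_of_nonneg_left b2 hK10.le)) (by positivity)
        _ = K1 * (5 * r) ^ (1 - δ) * (D * D) * (Z.card : ℝ) ^ (1 - δ) := by ring
        _ ≤ (Z.card : ℝ) ^ δ * (Z.card : ℝ) ^ (1 - δ) :=
            mul_le_mul_of_nonneg_right b3 (by positivity)
        _ = Z.card := by rw [← Real.rpow_add hZ0]; simp
    exact_mod_cast b4)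
  obtain ⟨k, hk⟩ := pow_unbounded_of_one_lt (Z.card / N1) (by norm_num : (1 : ℝ) < 4 / 3)
  rw [div_lt_iff₀ hN0] at hk
  have := main k Z (by linarith)
  refine this.trans (mul_le_mul_of_nonneg_right ?_ (Nat.cast_nonneg _))
  have : 0 ≤ N1 * (1 / ((k : ℝ) + 1)) := by positivity
  rw [mul_assoc 2 C0, ← hN1]
  linarith

end Pool.Agent.P.MP_2f3b43_co
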